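import Mathlib

set_option autoImplicit false

namespace Pool.Agent.Lib.MP_2abbea_co.ClassesLower

open Finset

theorem moment {α : Type} [DecidableEq α] (T : Finset α) : ∀ y : ℝ,
    ∑ S ∈ T.powerset, ((T.card : ℝ) - 2 * S.card + y) ^ 2 = 2 ^ T.card * (T.card + y ^ 2) := by
  induction T using Finset.induction_on with
  | empty => simp
  | insert a T ha ih =>
    intro y
    have h1 : ∑ S ∈ T.powerset, (((T.card + 1 : ℕ) : ℝ) - 2 * S.card + y) ^ 2 = _ :=
      (sum_congr rfl fun S _ => by push_cast; ring).trans (ih (y + 1))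
    have h2 : ∑ S ∈ T.powerset, (((T.card + 1 : ℕ) : ℝ) - 2 * (insert a S).card + y) ^ 2 = _ :=
      (sum_congr rfl fun S hS => by
        rw [card_insert_of_notMem fun h => ha (mem_powerset.1 hS h)]
        push_cast
        ring).trans (ih (y - 1))
    rw [sum_powerset_insert ha, card_insert_of_notMem ha, h1, h2]
    push_cast
    ring

theorem star {n k : ℕ} (hn : 0 < n) (h : (2 : ℝ) ^ n ≤ 4 * k * √n) (X : Finset (Finset (Fin n))) :
    ∃ i, (X.card : ℝ) / 2 - k ≤ (X.filter fun S => i ∈ S).card := by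
  have h1 : ∑ i : Fin n, ((X.filter fun S => i ∈ S).card : ℝ) = ∑ S ∈ X, (S.card : ℝ) := by
    simp only [card_filter, Nat.cast_sum]
    rw [sum_comm]
    exact sum_congr rfl fun S _ => by simp
  obtain ⟨i, -, hi⟩ := exists_le_of_sum_le (s := (univ : Finset (Fin n)))
    (f := fun _ => ∑ S ∈ X, (S.card : ℝ)) (g := fun i => n * ((X.filter fun S => i ∈ S).card : ℝ))
    ⟨⟨0, hn⟩, mem_univ _⟩ (by rw [← mul_sum, h1]; simp)
  refine ⟨i, ?_⟩
  have hn' : (0 : ℝ) < n := by exact_mod_cast hn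
  have hs : 0 < √(n : ℝ) := Real.sqrt_pos.2 hn'
  have h2 := moment (univ : Finset (Fin n)) √n
  rw [card_univ, Fintype.card_fin, Real.sq_sqrt hn'.le] at h2
  have h3 : ∑ S ∈ X, 4 * √n * ((n : ℝ) - 2 * S.card) ≤ 2 ^ n * (n + n) := by
    rw [← h2]
    refine (sum_le_sum fun S _ => ?_).trans
      (sum_le_sum_of_subset_of_nonneg (fun S _ => mem_powerset.2 (subset_univ S))
        fun _ _ _ => sq_nonneg _)
    nlinarith [sq_nonneg ((n : ℝ) - 2 * S.card - √n)]
  rw [← mul_sum, sum_sub_distrib, ← mul_sum, sum_const, nsmul_eq_mul] at h3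
  have h4 := mul_le_mul_of_nonneg_right h (by positivity : (0 : ℝ) ≤ n + n)
  have h5 := mul_le_mul_of_nonneg_left hi hs.le
  refine le_of_mul_le_mul_left ?_ (by positivity : 0 < √(n : ℝ) * n)
  nlinarith

theorem exists_size {k : ℕ} (hk : 0 < k) : ∃ n : ℕ, 0 < n ∧ (2 : ℝ) ^ n ≤ 4 * k * √n ∧
    2 * k * √(Real.logb 2 k) ≤ 2 ^ n := by
  have hk' : (1 : ℝ) ≤ k := by exact_mod_cast hk
  have h0 : ∃ n : ℕ, 4 * k * √((n + 1 : ℕ) : ℝ) < 2 ^ (n + 1) := by
    refine ⟨16 * k ^ 2 + 8 * k, ?_⟩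
    have h1 : ((16 * k ^ 2 + 8 * k + 1 : ℕ) : ℝ) = (4 * k + 1) ^ 2 := by
      push_cast
      ring
    have h2 : ((16 * k ^ 2 + 8 * k + 1 : ℕ) : ℝ) < 2 ^ (16 * k ^ 2 + 8 * k + 1) := by
      exact_mod_cast Nat.lt_two_pow_self
    rw [h1] at h2
    rw [h1, Real.sqrt_sq (by positivity)]
    nlinarith
  have h1 := Nat.find_spec h0
  have h2 : 0 < Nat.find h0 := (Nat.find_pos h0).2 (by
    simp only [zero_add, Nat.cast_one, Real.sqrt_one, not_lt]
    linarith)
  have h3 := Nat.find_min h0 (Nat.sub_lt h2 one_pos)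
  rw [show Nat.find h0 - 1 + 1 = Nat.find h0 by omega, not_lt] at h3
  refine ⟨_, h2, h3, ?_⟩
  generalize Nat.find h0 = n at h1
  have h4 : 1 ≤ √((n + 1 : ℕ) : ℝ) := Real.one_le_sqrt.2 (by simp)
  have h5 : Real.logb 2 k ≤ ((n + 1 : ℕ) : ℝ) := by
    rw [Real.logb_le_iff_le_rpow one_lt_two (by linarith), Real.rpow_natCast]
    nlinarith
  have h6 := mul_le_mul_of_nonneg_left (Real.sqrt_le_sqrt h5) (by positivity : (0 : ℝ) ≤ k)
  rw [pow_succ] at h1
  linarith

/-- For every `k` there is a finite graph in which every vertex set `S` contains an independent set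
of size at least `|S| / 2 - k`, and in which every vertex set `S` whose removal leaves a
`c`-colourable graph satisfies `2 k √(log₂ k) ≤ 2 ^ c (|S| + 1)`. -/
theorem result (k : ℕ) : ∃ (n : ℕ) (G : SimpleGraph (Fin n)),
    (∀ S : Finset (Fin n), ∃ I : Finset (Fin n), I ⊆ S ∧
      G.IsIndepSet (I : Set (Fin n)) ∧ (S.card : ℝ) / 2 - (k : ℝ) ≤ (I.card : ℝ)) ∧
    ∀ (c : ℕ) (S : Finset (Fin n)), (G.induce {v | v ∉ S}).Colorable c →
      2 * (k : ℝ) * √(Real.logb 2 k) ≤ 2 ^ c * ((S.card : ℝ) + 1) := by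
  classical
  rcases k.eq_zero_or_pos with rfl | hk
  · refine ⟨0, ⊥, fun S => ⟨S, subset_rfl, fun _ _ _ _ _ h => h, ?_⟩, fun c S _ => ?_⟩
    · simp
    · simp only [Nat.cast_zero, mul_zero, zero_mul]
      positivity
  obtain ⟨m, hm, h1, h2⟩ := exists_size hk
  let e := (Fintype.equivFin (Finset (Fin m))).symm
  refine ⟨_, SimpleGraph.fromRel fun u v => Disjoint (e u) (e v), fun S => ?_, fun c S hc => ?_⟩
  · obtain ⟨i, hi⟩ := star hm h1 (S.map e.toEmbedding)
    rw [filter_map, card_map, card_map] at hi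
    refine ⟨_, filter_subset _ _, fun u hu v hv _ h => ?_, hi⟩
    have a : i ∈ e u := (mem_filter.1 (mem_coe.1 hu)).2
    have b : i ∈ e v := (mem_filter.1 (mem_coe.1 hv)).2
    rcases ((SimpleGraph.fromRel_adj _ _ _).1 h).2 with h | h
    exacts [disjoint_left.1 h a b, disjoint_left.1 h b a]
  obtain ⟨C⟩ := hc
  have : Nonempty (Fin m) := ⟨⟨0, hm⟩⟩
  let f : Fin c → Finset (Finset (Fin m)) := fun j =>
    univ.filter fun A => A ≠ ∅ ∧ ∃ h : e.symm A ∉ S, C ⟨e.symm A, h⟩ = j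
  have h3 := card_biUnion_le_of_intersecting univ f fun j _ A hA B hB hAB => by
    obtain ⟨a, a1, a2⟩ := (mem_filter.1 (mem_coe.1 hA)).2
    obtain ⟨-, b1, b2⟩ := (mem_filter.1 (mem_coe.1 hB)).2
    refine C.valid (v := ⟨_, a1⟩) (w := ⟨_, b1⟩) ?_ (a2.trans b2.symm)
    refine (SimpleGraph.fromRel_adj (fun u v => Disjoint (e u) (e v)) (e.symm A) (e.symm B)).2
      ⟨fun h => a ?_, Or.inl (by simpa using hAB)⟩
    rw [← e.symm.injective h] at hAB
    exact disjoint_self.1 hAB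
  have h4 : (univ : Finset (Finset (Fin m))).card ≤
      (insert ∅ (S.map e.toEmbedding ∪ univ.biUnion f)).card := card_le_card fun A _ => by
    by_cases a : A = ∅
    · exact a ▸ mem_insert_self _ _
    refine mem_insert_of_mem (mem_union.2 ?_)
    by_cases b : e.symm A ∈ S
    · exact Or.inl (mem_map_equiv.2 b)
    · exact Or.inr (mem_biUnion.2 ⟨_, mem_univ _, mem_filter.2 ⟨mem_univ _, a, b, rfl⟩⟩)
  have h5 := h4.trans ((card_insert_le _ _).trans (Nat.succ_le_succ (card_union_le _ _)))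
  have h6 : 2 ^ (m - c) ≤ 2 ^ m := Nat.pow_le_pow_right two_pos (Nat.sub_le _ _)
  simp only [card_univ, Fintype.card_finset, Fintype.card_fin, card_map] at h3 h5
  have h7 : 2 ^ m ≤ 2 ^ c * (S.card + 1) :=
    (Nat.pow_le_pow_right two_pos (by omega : m ≤ c + (m - c))).trans
      (pow_add 2 c _ ▸ Nat.mul_le_mul_left _ (by omega))
  exact h2.trans (by exact_mod_cast h7)

end Pool.Agent.Lib.MP_2abbea_co.ClassesLower
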