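import Mathlib

set_option autoImplicit false

namespace Pool.Agent.MP_2abbea_co

open Finset

section Generic
variable {V ι : Type*}

/-- One step along an edge of `E`; edge `e` has the ends `p e` and `q e`. -/
def Rl (p q : ι → V) (E : Set ι) (a b : V) : Prop :=
  ∃ e ∈ E, (p e = a ∧ q e = b) ∨ (p e = b ∧ q e = a)

/-- Walks with `n` steps. -/
def It (p q : ι → V) (E : Set ι) : ℕ → V → V → Prop
  | 0, a, b => a = b
  | n + 1, a, b => ∃ y, It p q E n a y ∧ Rl p q E y b

variable {p q : ι → V} {E : Set ι}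

theorem Rl.symm {a b : V} (h : Rl p q E a b) : Rl p q E b a := by
  obtain ⟨e, he, h⟩ := h
  exact ⟨e, he, h.symm⟩

theorem It.refl (a : V) : It p q E 0 a a := rfl

theorem It.step {n : ℕ} {a y b : V} (h : It p q E n a y) (h' : Rl p q E y b) :
    It p q E (n + 1) a b := ⟨y, h, h'⟩

theorem It.trans {n n' : ℕ} {a b c : V} (h : It p q E n a b) (h' : It p q E n' b c) :
    It p q E (n + n') a c := by
  induction n' generalizing c with
  | zero =>
    have hb : b = c := h'
    subst hb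
    exact h
  | succ n' ih =>
    obtain ⟨y, h1, h2⟩ := h'
    exact (ih h1).step h2

theorem It.symm {n : ℕ} {a b : V} (h : It p q E n a b) : It p q E n b a := by
  induction n generalizing b with
  | zero =>
    have hb : a = b := h
    exact hb.symm
  | succ n ih =>
    obtain ⟨y, h1, h2⟩ := h
    have h3 : It p q E (0 + 1) b y := (It.refl b).step h2.symm
    have h4 := h3.trans (ih h1)
    have e : 0 + 1 + n = n + 1 := by omega
    rwa [e] at h4

theorem It.seq {n : ℕ} {a b : V} (h : It p q E n a b) :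
    ∃ x : ℕ → V, x 0 = a ∧ x n = b ∧ ∀ i < n, Rl p q E (x i) (x (i + 1)) := by
  induction n generalizing b with
  | zero =>
    have hb : a = b := h
    exact ⟨fun _ => a, rfl, hb, fun i hi => absurd hi (Nat.not_lt_zero i)⟩
  | succ n ih =>
    obtain ⟨y, h1, h2⟩ := h
    obtain ⟨x, x0, xn, hx⟩ := ih h1
    refine ⟨fun i => if i ≤ n then x i else b, by simp [x0], by simp, fun i hi => ?_⟩
    by_cases hin : i < n
    · have h5 : i ≤ n := hin.le
      have h6 : i + 1 ≤ n := hin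
      simp only [h5, h6, if_true]
      exact hx i hin
    · have h5 : i = n := by omega
      subst h5
      simp only [le_refl, if_true, add_le_iff_nonpos_right, nonpos_iff_eq_zero, one_ne_zero,
        if_false]
      rw [xn]
      exact h2

theorem seq_it {n : ℕ} {x : ℕ → V} (hx : ∀ i < n, Rl p q E (x i) (x (i + 1))) (i d : ℕ)
    (h : i + d ≤ n) : It p q E d (x i) (x (i + d)) := by
  induction d with
  | zero => exact It.refl _
  | succ d ih => exact (ih (by omega)).step (hx (i + d) (by omega))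

/-- Reachability. -/
def Rc (p q : ι → V) (E : Set ι) (a b : V) : Prop := ∃ n, It p q E n a b

/-- Distance. -/
noncomputable def dd (p q : ι → V) (E : Set ι) (a b : V) : ℕ := sInf {n | It p q E n a b}

theorem dd_it {a b : V} (h : Rc p q E a b) : It p q E (dd p q E a b) a b :=
  Nat.sInf_mem (s := {n | It p q E n a b}) h

theorem dd_le {n : ℕ} {a b : V} (h : It p q E n a b) : dd p q E a b ≤ n :=
  Nat.sInf_le (s := {n | It p q E n a b}) h

/-- The components. -/
def rs (p q : ι → V) (E : Set ι) : Setoid V where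
  r := Rc p q E
  iseqv := ⟨fun a => ⟨0, It.refl a⟩, fun ⟨n, h⟩ => ⟨n, h.symm⟩,
    fun ⟨n, h⟩ ⟨n', h'⟩ => ⟨n + n', h.trans h'⟩⟩

theorem rc_edge {e : ι} (he : e ∈ E) : Rc p q E (p e) (q e) :=
  ⟨0 + 1, (It.refl _).step ⟨e, he, Or.inl ⟨rfl, rfl⟩⟩⟩

theorem exists_parent {v b : V} (h : Rc p q E v b) (h0 : dd p q E v b ≠ 0) :
    ∃ e ∈ E, (p e = b ∧ dd p q E v (q e) < dd p q E v b) ∨
      (q e = b ∧ dd p q E v (p e) < dd p q E v b) := by
  have h1 := dd_it h
  obtain ⟨n, hn⟩ := Nat.exists_eq_succ_of_ne_zero h0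
  rw [hn] at h1 ⊢
  obtain ⟨y, h2, e, he, h3⟩ := h1
  have h4 := dd_le h2
  refine ⟨e, he, ?_⟩
  rcases h3 with ⟨h5, h6⟩ | ⟨h5, h6⟩
  · exact Or.inr ⟨h6, by rw [h5]; omega⟩
  · exact Or.inl ⟨h5, by rw [h6]; omega⟩

theorem card_le_edges [DecidableEq V] (p q : ι → V) (F : Finset ι) (d : V → ℕ) (T : Finset V)
    (h : ∀ b ∈ T, ∃ e ∈ F, (p e = b ∧ d (q e) < d b) ∨ (q e = b ∧ d (p e) < d b)) :
    T.card ≤ F.card := by
  refine le_trans (card_le_card (t := F.image fun e => if d (q e) < d (p e) then p e else q e)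
    fun b hb => ?_) card_image_le
  obtain ⟨e, he, h1⟩ := h b hb
  refine mem_image.2 ⟨e, he, ?_⟩
  rcases h1 with ⟨h2, h3⟩ | ⟨h2, h3⟩
  · subst h2
    simp [h3]
  · subst h2
    have : ¬ d (q e) < d (p e) := by omega
    simp [this]

/-- `U` spans a bipartite graph. -/
def Bal (p q : ι → V) (E : Set ι) (U : Set V) : Prop :=
  ∃ φ : V → ZMod 2, ∀ e ∈ E, p e ∈ U → q e ∈ U → φ (p e) ≠ φ (q e)

theorem par_edge {v : V} {e : ι} (he : e ∈ E) (h1 : Rc p q E v (p e)) (h2 : Rc p q E v (q e))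
    (h : ((dd p q E v (p e) : ℕ) : ZMod 2) = ((dd p q E v (q e) : ℕ) : ZMod 2)) :
    Odd (dd p q E v (p e) + 1 + dd p q E v (q e)) ∧
      It p q E (dd p q E v (p e) + 1 + dd p q E v (q e)) v v := by
  refine ⟨?_, ((dd_it h1).step ⟨e, he, Or.inl ⟨rfl, rfl⟩⟩).trans (dd_it h2).symm⟩
  have h3 := (ZMod.natCast_eq_natCast_iff' _ _ 2).1 h
  rw [Nat.odd_iff]
  omega

theorem bal_of_no_odd (h : ∀ n, Odd n → ∀ a, ¬ It p q E n a a) : Bal p q E Set.univ := by
  refine ⟨fun b => ((dd p q E (Quotient.mk (rs p q E) b).out b : ℕ) : ZMod 2),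
    fun e he _ _ hh => ?_⟩
  have h1 : Quotient.mk (rs p q E) (p e) = Quotient.mk (rs p q E) (q e) :=
    Quotient.sound (rc_edge he)
  have h2 : Rc p q E (Quotient.mk (rs p q E) (p e)).out (p e) := Quotient.mk_out (s := rs p q E) _
  have h3 : Rc p q E (Quotient.mk (rs p q E) (q e)).out (q e) := Quotient.mk_out (s := rs p q E) _
  simp only at hh
  rw [← h1] at h3 hh
  obtain ⟨h4, h5⟩ := par_edge he h2 h3 hh
  exact h _ h4 _ h5

theorem not_bal_seq {g : ℕ} (hg : Odd g) {x : ℕ → V} (hx : ∀ i < g, Rl p q E (x i) (x (i + 1)))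
    (h0 : x g = x 0) : ¬ Bal p q E {y | ∃ i ≤ g, x i = y} := by
  rintro ⟨φ, hφ⟩
  have key : ∀ i ≤ g, φ (x i) = φ (x 0) + (i : ZMod 2) := by
    intro i
    induction i with
    | zero => intro _; simp
    | succ i ih =>
      intro hi
      have h1 := ih (by omega)
      obtain ⟨e, he, h2⟩ := hx i (by omega)
      have m1 : x i ∈ {y | ∃ i ≤ g, x i = y} := ⟨i, by omega, rfl⟩
      have m2 : x (i + 1) ∈ {y | ∃ i ≤ g, x i = y} := ⟨i + 1, hi, rfl⟩
      have h3 : φ (x i) ≠ φ (x (i + 1)) := by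
        rcases h2 with ⟨h4, h5⟩ | ⟨h4, h5⟩
        · have := hφ e he (h4 ▸ m1) (h5 ▸ m2)
          rwa [h4, h5] at this
        · have := hφ e he (h4 ▸ m2) (h5 ▸ m1)
          rw [h4, h5] at this
          exact this.symm
      have h6 : ∀ a b : ZMod 2, a ≠ b → b = a + 1 := by decide
      rw [h6 _ _ h3, h1]
      push_cast
      ring
  have h7 := key g le_rfl
  rw [h0] at h7
  obtain ⟨c, hc⟩ := hg
  have h8 : (g : ZMod 2) = 1 := by
    rw [hc]
    push_cast
    have : (2 : ZMod 2) = 0 := by decide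
    rw [this]
    ring
  rw [h8] at h7
  have h9 : ∀ a : ZMod 2, a ≠ a + 1 := by decide
  exact h9 _ h7

/-- A graph with fewer than `k ^ 2 + 2 k` edges and no two disjoint odd cycles has an odd cycle
transversal with at most `2 k` vertices. -/
theorem small_transversal [Fintype V] [DecidableEq V] (p q : ι → V) (F : Finset ι) (k : ℕ)
    (hF : F.card < k ^ 2 + 2 * k)
    (H : ∀ U : Set V, Bal p q (F : Set ι) U ∨ Bal p q (F : Set ι) Uᶜ) :
    ∃ S : Finset V, S.card ≤ 2 * k ∧ Bal p q (F : Set ι) (S : Set V)ᶜ := by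
  classical
  by_cases hodd : ∃ g, Odd g ∧ ∃ v, It p q (F : Set ι) g v v
  swap
  · refine ⟨∅, by simp, ?_⟩
    simp only [coe_empty, Set.compl_empty]
    exact bal_of_no_odd fun n hn a ha => hodd ⟨n, hn, a, ha⟩
  obtain ⟨hg, v, hv⟩ := Nat.find_spec hodd
  have hmin : ∀ n, n < Nat.find hodd → Odd n → ¬ It p q (F : Set ι) n v v :=
    fun n hn h1 h2 => Nat.find_min hodd hn ⟨h1, v, h2⟩
  generalize Nat.find hodd = g at hg hv hmin
  obtain ⟨x, x0, xg, hx⟩ := hv.seq
  obtain ⟨φW, hW⟩ := (H {y | ∃ i ≤ g, x i = y}).resolve_left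
    (not_bal_seq hg hx (by rw [xg, x0]))
  obtain ⟨h, hh⟩ := hg
  by_cases hk : h < k
  · refine ⟨(range g).image x, le_trans card_image_le (by rw [card_range]; omega), φW, ?_⟩
    have sub : ∀ a, a ∈ (((range g).image x : Finset V) : Set V)ᶜ →
        a ∈ {y | ∃ i ≤ g, x i = y}ᶜ := by
      rintro a ha ⟨i, hi, rfl⟩
      apply ha
      rw [mem_coe, mem_image]
      by_cases hi' : i < g
      · exact ⟨i, mem_range.2 hi', rfl⟩
      · have : i = g := by omega
        exact ⟨0, mem_range.2 (by omega), by rw [this, xg, x0]⟩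
    exact fun e he h1 h2 => hW e he (sub _ h1) (sub _ h2)
  set L : ℕ → Finset V := fun j =>
    univ.filter fun b => Rc p q (F : Set ι) v b ∧ dd p q (F : Set ι) v b = j with hL
  have hex : ∃ i < k, (L (h - i)).card + 2 * i ≤ 2 * k := by
    by_contra hcon
    push Not at hcon
    have s1 : ∑ i ∈ range k, (2 * k + 1) ≤ ∑ i ∈ range k, ((L (h - i)).card + 2 * i) :=
      sum_le_sum fun i hi => hcon i (mem_range.1 hi)
    have s2 : ∑ i ∈ range k, (L (h - i)).card ≤ F.card := by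
      rw [← card_biUnion]
      · refine card_le_edges p q F (dd p q (F : Set ι) v) _ fun b hb => ?_
        obtain ⟨i, hi, hb⟩ := mem_biUnion.1 hb
        have hi' := mem_range.1 hi
        obtain ⟨-, h1, h2⟩ := mem_filter.1 hb
        exact exists_parent h1 (by omega)
      · intro i hi j hj hij
        have hi' := mem_range.1 (mem_coe.1 hi)
        have hj' := mem_range.1 (mem_coe.1 hj)
        refine disjoint_left.2 fun b h1 h2 => ?_
        obtain ⟨-, -, h3⟩ := mem_filter.1 h1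
        obtain ⟨-, -, h4⟩ := mem_filter.1 h2
        omega
    rw [sum_const, card_range, smul_eq_mul, sum_add_distrib, ← mul_sum] at s1
    have s3 := sum_range_id_mul_two k
    have hk1 : 1 ≤ k := by
      rcases Nat.eq_zero_or_pos k with h0 | h0
      · subst h0
        simp at hF
      · exact h0
    obtain ⟨k', rfl⟩ : ∃ k', k = k' + 1 := ⟨k - 1, by omega⟩
    simp only [Nat.add_sub_cancel] at s3
    nlinarith
  obtain ⟨i, hi, hc⟩ := hex
  set j := h - i with hj
  refine ⟨L j ∪ (Ico (j + 1) (g - j)).image x, ?_, ?_⟩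
  · refine le_trans (card_union_le _ _) ?_
    have : ((Ico (j + 1) (g - j)).image x).card ≤ (Ico (j + 1) (g - j)).card := card_image_le
    rw [Nat.card_Ico] at this
    omega
  refine ⟨fun b => if Rc p q (F : Set ι) v b ∧ dd p q (F : Set ι) v b < j
    then ((dd p q (F : Set ι) v b : ℕ) : ZMod 2) else φW b, fun e he h1 h2 => ?_⟩
  have nL : ∀ a, a ∈ ((L j ∪ (Ico (j + 1) (g - j)).image x : Finset V) : Set V)ᶜ →
      Rc p q (F : Set ι) v a → dd p q (F : Set ι) v a ≠ j := by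
    intro a ha h3 h4
    apply ha
    rw [mem_coe, mem_union]
    exact Or.inl (mem_filter.2 ⟨mem_univ _, h3, h4⟩)
  have inn : ∀ a b, Rl p q (F : Set ι) a b →
      b ∈ ((L j ∪ (Ico (j + 1) (g - j)).image x : Finset V) : Set V)ᶜ →
      (Rc p q (F : Set ι) v a ∧ dd p q (F : Set ι) v a < j) →
      (Rc p q (F : Set ι) v b ∧ dd p q (F : Set ι) v b < j) := by
    rintro a b hab hb ⟨h3, h4⟩
    have h5 := (dd_it h3).step hab
    have h6 := dd_le h5
    have h7 := nL b hb ⟨_, h5⟩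
    exact ⟨⟨_, h5⟩, by omega⟩
  have out : ∀ a, a ∈ ((L j ∪ (Ico (j + 1) (g - j)).image x : Finset V) : Set V)ᶜ →
      ¬ (Rc p q (F : Set ι) v a ∧ dd p q (F : Set ι) v a < j) →
      a ∈ {y | ∃ i ≤ g, x i = y}ᶜ := by
    rintro a ha hn ⟨i', hi', rfl⟩
    have h3 := seq_it hx 0 i' (by omega)
    have h4 := (seq_it hx i' (g - i') (by omega)).symm
    rw [x0, zero_add] at h3
    have e1 : i' + (g - i') = g := by omega
    rw [e1, xg] at h4
    have h5 := dd_le h3
    have h6 := dd_le h4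
    have h7 := nL _ ha ⟨_, h3⟩
    have h8 : ¬ dd p q (F : Set ι) v (x i') < j := fun h9 => hn ⟨⟨_, h3⟩, h9⟩
    apply ha
    rw [mem_coe, mem_union]
    exact Or.inr (mem_image.2 ⟨i', mem_Ico.2 ⟨by omega, by omega⟩, rfl⟩)
  have r1 : Rl p q (F : Set ι) (p e) (q e) := ⟨e, he, Or.inl ⟨rfl, rfl⟩⟩
  by_cases c1 : Rc p q (F : Set ι) v (p e) ∧ dd p q (F : Set ι) v (p e) < j
  · have c2 := inn _ _ r1 h2 c1
    simp only [if_pos c1, if_pos c2]
    intro hh2
    obtain ⟨h4, h5⟩ := par_edge he c1.1 c2.1 hh2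
    have := c1.2
    have := c2.2
    exact hmin _ (by omega) h4 h5
  · have c2 : ¬ (Rc p q (F : Set ι) v (q e) ∧ dd p q (F : Set ι) v (q e) < j) :=
      fun c2 => c1 (inn _ _ r1.symm h1 c2)
    simp only [if_neg c1, if_neg c2]
    exact hW e he (out _ h1 c1) (out _ h2 c2)

end Generic

/-- Duality over the field with two elements. -/
theorem dual_alt {B κ : Type*} (P Q : κ → B) (ω : κ → ZMod 2) (U : Set B) :
    (∃ φ : B → ZMod 2, ∀ e, P e ∈ U → Q e ∈ U → ω e = φ (P e) + φ (Q e)) ∨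
    ∃ f : (κ → ZMod 2) →ₗ[ZMod 2] ZMod 2, f ω = 1 ∧ ∀ (y : κ → ZMod 2) (φ : B → ZMod 2),
      (∀ e, P e ∈ U → Q e ∈ U → y e = φ (P e) + φ (Q e)) → f y = 0 := by
  have h3 : ∀ a : ZMod 2, a ≠ 0 → a = 1 := by decide
  let N : Submodule (ZMod 2) (κ → ZMod 2) :=
    { carrier := {y | ∃ φ : B → ZMod 2, ∀ e, P e ∈ U → Q e ∈ U → y e = φ (P e) + φ (Q e)}
      add_mem' := by
        rintro y y' ⟨φ, h⟩ ⟨φ', h'⟩
        refine ⟨φ + φ', fun e h1 h2 => ?_⟩
        simp only [Pi.add_apply]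
        rw [h e h1 h2, h' e h1 h2]
        ring
      zero_mem' := ⟨0, fun e _ _ => by simp⟩
      smul_mem' := by
        rintro c y ⟨φ, h⟩
        refine ⟨c • φ, fun e h1 h2 => ?_⟩
        simp only [Pi.smul_apply, smul_eq_mul]
        rw [h e h1 h2]
        ring }
  by_cases hω : ω ∈ N
  · exact Or.inl hω
  · obtain ⟨f, h1, h2⟩ := Submodule.exists_le_ker_of_notMem hω
    exact Or.inr ⟨f, h3 _ h1, fun y φ h => h2 (show y ∈ N from ⟨φ, h⟩)⟩

end Pool.Agent.MP_2abbea_co
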