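import Pool.Agent.Lib.MP_2abbea_co.FcTop

/-! Ball carving, scales, halving. -/

namespace Pool.Agent.Lib.MP_2abbea_co.Fc

open Finset

variable {V : Type} [DecidableEq V] {G : SimpleGraph V} {X : Finset V} {d : ℕ}

theorem pow_grow {q : ℕ} (hq : 0 < q) (t : ℕ) : 2 ^ t * q ^ (q * t) ≤ (q + 1) ^ (q * t) := by
  rw [pow_mul, pow_mul, ← mul_pow]
  refine Nat.pow_le_pow_left ?_ t
  have h : ∀ n, q ^ (n + 1) + (n + 1) * q ^ n ≤ (q + 1) ^ (n + 1) := fun n => by
    induction n with
    | zero => simp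
    | succ n ih =>
      calc _ ≤ (q ^ (n + 1) + (n + 1) * q ^ n) * (q + 1) := by
            ring_nf
            omega
        _ ≤ _ := Nat.mul_le_mul_right _ ih
  obtain ⟨n, rfl⟩ : ∃ n, q = n + 1 := ⟨q - 1, by omega⟩
  have := h n
  rw [← pow_succ'] at this
  omega

theorem carve {q t : ℕ} (hq : 0 < q) (U : Finset V) : U.card < 2 ^ t → Og G U (2 * (q * t)) →
    ∃ U' ⊆ U, q * U'.card ≤ U.card ∧ Col G (U \ U') 2 := by
  classical
  induction U using Finset.strongInduction with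
  | H U ih =>
  intro hU hg
  rcases U.eq_empty_or_nonempty with rfl | ⟨v, hv⟩
  · exact ⟨∅, subset_rfl, by simp, by simpa using col_empty⟩
  let B : ℕ → Finset V := fun r => U.filter fun x => ∃ n ≤ r, Wk G U v n x
  have hB : ∀ r, v ∈ B r := fun r => mem_filter.2 ⟨hv, 0, r.zero_le, .nil hv⟩
  have h1 : ∃ r < q * t, q * (B (r + 1)).card ≤ (q + 1) * (B r).card := by
    by_contra hc
    push Not at hc
    have h2 : ∀ r ≤ q * t, (q + 1) ^ r ≤ q ^ r * (B r).card := fun r hr => by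
      induction r with
      | zero => simpa using ⟨v, hB 0⟩
      | succ r ih =>
        calc (q + 1) ^ (r + 1) ≤ q ^ r * (B r).card * (q + 1) :=
              Nat.mul_le_mul_right _ (ih (by omega))
          _ = q ^ r * ((q + 1) * (B r).card) := by ring
          _ ≤ q ^ r * (q * (B (r + 1)).card) := Nat.mul_le_mul_left _ (hc r hr).le
          _ = _ := by ring
    have h3 := (pow_grow hq t).trans (h2 _ le_rfl)
    rw [mul_comm] at h3
    have h4 := Nat.le_of_mul_le_mul_left h3 (by positivity)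
    have h5 : (B (q * t)).card ≤ U.card := card_filter_le _ _
    omega
  obtain ⟨r, hr, h1⟩ := h1
  have h2 : B r ⊆ B (r + 1) := fun x hx =>
    let ⟨a, n, b, c⟩ := mem_filter.1 hx
    mem_filter.2 ⟨a, n, b.trans r.le_succ, c⟩
  have h3 : B (r + 1) ⊆ U := filter_subset _ _
  obtain ⟨W, w1, w2, w3⟩ := ih (U \ B (r + 1)) (sdiff_ssubset h3 ⟨v, hB _⟩)
    ((card_le_card sdiff_subset).trans_lt hU) (hg.mono sdiff_subset le_rfl)
  have h4 : Col G (B r) 2 := by
    have h5 : ∀ x, ∃ n, x ∈ B r → n ≤ r ∧ Wk G U v n x := fun x => by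
      by_cases hx : x ∈ B r
      · obtain ⟨n, c⟩ := (mem_filter.1 hx).2
        exact ⟨n, fun _ => c⟩
      · exact ⟨0, fun c => absurd c hx⟩
    choose len hlen using h5
    refine col_cen (K := 1) (fun _ => 0) (fun _ => v) len (fun _ _ => one_pos)
      (fun x hx => (hlen x hx).2) (fun _ _ _ _ _ _ => rfl) fun x hx y hy z c e => ?_
    have h6 := hg _ _ c e
    have h7 := (hlen x hx).1
    have h8 := (hlen y hy).1
    omega
  refine ⟨W ∪ (B (r + 1) \ B r), union_subset (w1.trans sdiff_subset) (sdiff_subset.trans h3), ?_,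
    h4.sep w3 (fun x a b => ?_) fun x a y b c => ?_⟩
  · have h5 := Nat.mul_le_mul_left q (card_union_le W (B (r + 1) \ B r))
    have h6 := congrArg (q * ·) (card_sdiff_add_card_eq_card h2)
    have h7 := card_sdiff_add_card_eq_card h3
    have h8 := card_le_card h2
    simp only [mul_add, add_mul, one_mul] at h1 h5 h6
    omega
  · simp only [mem_sdiff, mem_union] at a ⊢
    tauto
  · obtain ⟨-, n, e, f⟩ := mem_filter.1 a
    obtain ⟨g, h⟩ := mem_sdiff.1 (mem_sdiff.1 b).1
    exact h (mem_filter.2 ⟨g, n + 1, by omega, f.snoc c g⟩)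

theorem rounds {q t : ℕ} (hq : 0 < q) (j : ℕ) : ∀ U : Finset V, U.card < q ^ j → U.card < 2 ^ t →
    Og G U (2 * (q * t)) → Col G U (2 * j) := by
  induction j with
  | zero =>
    intro U h _ _
    rw [card_eq_zero.1 (by simpa using h : U.card = 0)]
    exact col_empty
  | succ j ih =>
    intro U h1 h2 h3
    obtain ⟨W, a, b, c⟩ := carve hq U h2 h3
    rw [pow_succ'] at h1
    exact (ih W (Nat.lt_of_mul_lt_mul_left (b.trans_lt h1)) ((card_le_card a).trans_lt h2)
      (h3.mono a le_rfl)).add c fun v x y => mem_sdiff.2 ⟨x, y⟩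

theorem twelve {u : ℕ} (hu : 7 ≤ u) : 12 * u ≤ 2 ^ u := by
  induction u, hu using Nat.le_induction with
  | base => norm_num
  | succ u hu ih =>
    rw [pow_succ]
    omega

theorem scales (N : ℕ) : ∀ (u : ℕ) (X : Finset V), 7 ≤ u → d < 2 ^ (2 * u) → Pk G X d →
    Og G X (2 ^ (2 * u)) → 4 * d + 1 ≤ 2 * u * 2 ^ N → Col G X (12 * N + 6) := by
  induction N with
  | zero =>
    intro u X _ _ hP hg h
    refine top_col hP (hg.mono subset_rfl ?_)
    rw [show 16 = 2 ^ 4 by norm_num, ← pow_mul, ← pow_succ']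
    exact Nat.pow_le_pow_right (by omega) (by omega)
  | succ N ih =>
    intro u X hu hd hP hg h
    obtain ⟨U, a, b, c⟩ := peel (2 ^ (4 * u)) d X hP
    have h1 : U.card < 2 ^ (6 * u) := by
      rw [show 6 * u = 2 * u + 4 * u by ring, pow_add]
      exact b.trans_lt (Nat.mul_lt_mul_of_pos_right hd (by positivity))
    have h2 := rounds (G := G) (q := 2 ^ u) (t := 6 * u) (by positivity) 6 U
      (by rwa [← pow_mul, mul_comm]) h1 (hg.mono a (by
        rw [two_mul u, pow_add]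
        have := Nat.mul_le_mul_left (2 ^ u) (twelve hu)
        linarith))
    have h3 := ih (2 * u) (X \ U) (by omega)
      (hd.trans_le (Nat.pow_le_pow_right (by omega) (by omega))) (hP.mono sdiff_subset)
      (c.mono subset_rfl (by rw [show 2 * (2 * u) = 4 * u by ring]; exact Nat.le_succ _))
      (by rw [pow_succ] at h; linarith)
    exact (h2.add h3 fun v x y => mem_sdiff.2 ⟨x, y⟩).mono subset_rfl (by omega)

theorem halve (j : ℕ) : ∀ X : Finset V, Pk G X d → X.card < d + 2 ^ j →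
    ∃ S : Finset V, S.card ≤ d ∧ Col G (X \ S) j := by
  induction j with
  | zero => exact fun X _ h => ⟨X, by omega, by simpa using col_empty⟩
  | succ j ih =>
    intro X hP h
    obtain ⟨I, a, b, c⟩ := hP X subset_rfl
    have h1 := card_sdiff_add_card_eq_card a
    rw [pow_succ] at h
    obtain ⟨S, e, f⟩ := ih (X \ I) (hP.mono sdiff_subset) (by omega)
    have h2 : Col G I 1 := ⟨fun _ => 0, fun _ _ => one_pos, fun u x v y z _ => b u x v y z⟩
    exact ⟨S, e, (h2.add f fun v x y => mem_sdiff.2 ⟨mem_sdiff.2 ⟨(mem_sdiff.1 x).1, y⟩,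
      (mem_sdiff.1 x).2⟩).mono subset_rfl (by omega)⟩

theorem few (hP : Pk G X d) :
    ∃ S : Finset V, S.card ≤ d ∧ Col G (X \ S) (15 * Nat.log 2 d + 27) := by
  obtain ⟨a, ha⟩ : ∃ a, a = Nat.log 2 d := ⟨_, rfl⟩
  have h0 : d < 2 ^ (a + 1) := ha ▸ Nat.lt_pow_succ_log_self (by omega) d
  have h1 : d < 2 ^ (a + 7) := h0.trans_le (Nat.pow_le_pow_right (by omega) (by omega))
  obtain ⟨U, b, c, e⟩ := peel (2 ^ (2 * (a + 7))) d X hP
  obtain ⟨S, f, g⟩ := halve (3 * (a + 7)) U (hP.mono b) (by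
    rw [show 3 * (a + 7) = a + 7 + 2 * (a + 7) by ring, pow_add]
    have := c.trans_lt (Nat.mul_lt_mul_of_pos_right h1 (by positivity))
    omega)
  have h2 := scales a (a + 7) (X \ U) (by omega)
    (h1.trans_le (Nat.pow_le_pow_right (by omega) (by omega))) (hP.mono sdiff_subset)
    (e.mono subset_rfl (by omega)) (by
      rw [pow_succ] at h0
      have : 14 * 2 ^ a ≤ 2 * (a + 7) * 2 ^ a := Nat.mul_le_mul_right _ (by omega)
      omega)
  exact ⟨S, f, (g.add h2 fun v x y => mem_sdiff.2 ⟨(mem_sdiff.1 x).1,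
    fun z => y (mem_sdiff.2 ⟨z, (mem_sdiff.1 x).2⟩)⟩).mono subset_rfl (by omega)⟩

theorem six (hP : Pk G X d) : ∃ S : Finset V, S.card ≤ d * (2 * 16 ^ d) ∧ Col G (X \ S) 6 :=
  let ⟨U, _, b, c⟩ := peel (2 * 16 ^ d) d X hP
  ⟨U, b, top_col (hP.mono sdiff_subset) (c.mono subset_rfl (Nat.le_succ _))⟩

end Pool.Agent.Lib.MP_2abbea_co.Fc
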