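import Pool.Agent.Lib.MP_2abbea_co.FcWalk

/-! Clusters along nested geodesic paths; six colours for very large odd girth. -/

namespace Pool.Agent.Lib.MP_2abbea_co.Fc

open Finset

variable {V : Type} {G : SimpleGraph V} {X Y Z : Finset V}

/-- Two classes of clusters of radius at most `D` (measured in `Y`) that cover `Z`, adjacent
vertices of the same class lying in the same cluster. -/
def Cl (G : SimpleGraph V) (Y Z : Finset V) (D : ℕ) : Prop :=
  ∃ (cls : V → ℕ) (cen : V → V), (∀ v ∈ Z, cls v < 2 ∧ ∃ n ≤ D, Wk G Y (cen v) n v) ∧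
    ∀ u ∈ Z, ∀ v ∈ Z, G.Adj u v → cls u = cls v → cen u = cen v

theorem Cl.mono {Y' Z' : Finset V} {D : ℕ} (h : Cl G Y Z D) (hY : Y ⊆ Y') (hZ : Z' ⊆ Z) :
    Cl G Y' Z' D :=
  let ⟨cls, cen, a, b⟩ := h
  ⟨cls, cen, fun v hv => let ⟨c, n, d, e⟩ := a v (hZ hv); ⟨c, n, d, e.mono hY⟩,
    fun u hu v hv => b u (hZ hu) v (hZ hv)⟩

theorem Cl.col {D : ℕ} (h : Cl G Y Z D) (hg : Og G Y (2 * D + 2)) : Col G Z 4 := by
  obtain ⟨cls, cen, a, b⟩ := h
  have h1 : ∀ v, ∃ n, v ∈ Z → n ≤ D ∧ Wk G Y (cen v) n v := fun v => by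
    by_cases hv : v ∈ Z
    · obtain ⟨n, c⟩ := (a v hv).2
      exact ⟨n, fun _ => c⟩
    · exact ⟨0, fun c => absurd c hv⟩
  choose len hlen using h1
  refine col_cen (K := 2) cls cen len (fun v hv => (a v hv).1) (fun v hv => (hlen v hv).2) b
    fun u hu v hv z c d => ?_
  have h2 := hg _ _ c d
  have h3 := (hlen u hu).1
  have h4 := (hlen v hv).1
  omega

theorem div_near {a b r s : ℕ} (h1 : a ≤ b + r) (h2 : b ≤ a + r) (hr : r < s)
    (h : a / s % 2 = b / s % 2) : a / s = b / s := by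
  have h3 : a / s ≤ b / s + 1 := by
    rw [← Nat.add_div_right b (by omega : 0 < s)]
    exact Nat.div_le_div_right (by omega)
  have h4 : b / s ≤ a / s + 1 := by
    rw [← Nat.add_div_right a (by omega : 0 < s)]
    exact Nat.div_le_div_right (by omega)
  omega

variable [DecidableEq V]

theorem Cl.path {D m : ℕ} {p : ℕ → V} (h : Cl G Y Z D)
    (hw : ∀ a b, a ≤ b → b < m → Wk G Y (p a) (b - a) (p b))
    (hg : ∀ a b r, a ≤ b → b < m → Wk G Y (p a) r (p b) → b ≤ a + r) :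
    Cl G Y (Z ∪ (range m).image p) (4 * D + 3) := by
  classical
  obtain ⟨cls, cen, c1, c2⟩ := h
  obtain ⟨s, hs⟩ : ∃ s, s = 2 * D + 3 := ⟨_, rfl⟩
  have near : ∀ a b r, a < m → b < m → Wk G Y (p a) r (p b) → r < s → a / s % 2 = b / s % 2 →
      a / s = b / s := fun a b r ha hb c hr => by
    rcases le_total a b with d | d
    · exact div_near (by omega) (hg a b r d hb c) hr
    · exact div_near (hg b a r d ha c.symm) (by omega) hr
  have base : ∀ a, a < m → ∃ n < s, Wk G Y (p (s * (a / s))) n (p a) := fun a ha => by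
    refine ⟨_, ?_, hw _ a (Nat.mul_div_le a s) ha⟩
    have h1 := Nat.div_add_mod a s
    have h2 := Nat.mod_lt a (by omega : 0 < s)
    omega
  have h1 : ∀ v, ∃ i, v ∈ (range m).image p → i < m ∧ p i = v := fun v => by
    by_cases hv : v ∈ (range m).image p
    · obtain ⟨i, a, b⟩ := mem_image.1 hv
      exact ⟨i, fun _ => ⟨mem_range.1 a, b⟩⟩
    · exact ⟨0, fun c => absurd c hv⟩
  choose ix hix using h1
  let T : ℕ → V → ℕ → Prop := fun c z i =>
    i < m ∧ i / s % 2 = c ∧ ∃ y ∈ Z, cls y = c ∧ cen y = z ∧ G.Adj (p i) y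
  have h2 : ∀ c z, ∃ x, (¬ (∃ i, T c z i) ∧ x = z) ∨ ∃ i, T c z i ∧ x = p (s * (i / s)) :=
    fun c z => by
      by_cases h : ∃ i, T c z i
      · obtain ⟨i, hi⟩ := h
        exact ⟨_, .inr ⟨i, hi, rfl⟩⟩
      · exact ⟨z, .inl ⟨h, rfl⟩⟩
  choose g hgg using h2
  have link : ∀ v ∈ Z, ∀ i, T (cls v) (cen v) i → ∃ n ≤ 2 * D + 1, Wk G Y (p i) n v := by
    rintro v hv i ⟨a, -, y, hy, -, e, f⟩
    obtain ⟨n, n1, n2⟩ := (c1 y hy).2
    obtain ⟨k, k1, k2⟩ := (c1 v hv).2
    exact ⟨_, by omega, (((Wk.nil (hw i i le_rfl a).left).snoc f n2.right).trans n2.symm).trans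
      (e ▸ k2)⟩
  have mix : ∀ u ∈ (range m).image p, ∀ v ∈ Z, G.Adj u v → ix u / s % 2 = cls v →
      p (s * (ix u / s)) = g (cls v) (cen v) := fun u hu v hv huv e => by
    obtain ⟨a, b⟩ := hix u hu
    rcases hgg (cls v) (cen v) with ⟨c, -⟩ | ⟨i, c, d⟩
    · exact absurd ⟨ix u, a, e, v, hv, rfl, rfl, by rwa [b]⟩ c
    · obtain ⟨n, n1, n2⟩ := link v hv i c
      have h3 : Wk G Y (p i) (n + 1) (p (ix u)) :=
        n2.snoc (by rw [b]; exact huv.symm) (hw _ _ le_rfl a).left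
      rw [d, near i (ix u) _ c.1 a h3 (by omega) (c.2.1.trans e.symm)]
  refine ⟨fun v => if v ∈ (range m).image p then ix v / s % 2 else cls v,
    fun v => if v ∈ (range m).image p then p (s * (ix v / s)) else g (cls v) (cen v),
    fun v hv => ?_, fun u hu v hv huv => ?_⟩
  · dsimp only
    split_ifs with h
    · obtain ⟨a, b⟩ := hix v h
      obtain ⟨n, n1, n2⟩ := base _ a
      rw [b] at n2
      exact ⟨by omega, n, by omega, n2⟩
    · have hv := (mem_union.1 hv).resolve_right h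
      refine ⟨(c1 v hv).1, ?_⟩
      rcases hgg (cls v) (cen v) with ⟨-, d⟩ | ⟨i, c, d⟩ <;> rw [d]
      · obtain ⟨n, n1, n2⟩ := (c1 v hv).2
        exact ⟨n, by omega, n2⟩
      · obtain ⟨n, n1, n2⟩ := link v hv i c
        obtain ⟨k, k1, k2⟩ := base i c.1
        exact ⟨_, by omega, k2.trans n2⟩
  · dsimp only
    split_ifs with h1 h2 h2 <;> intro e
    · obtain ⟨a, b⟩ := hix u h1
      obtain ⟨c, d⟩ := hix v h2
      have h3 : Wk G Y (p (ix u)) (0 + 1) (p (ix v)) :=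
        (Wk.nil (hw _ _ le_rfl a).left).snoc (by rwa [b, d]) (hw _ _ le_rfl c).left
      rw [near _ _ _ a c h3 (by omega) e]
    · exact mix u h1 v ((mem_union.1 hv).resolve_right h2) huv e
    · exact (mix v h2 u ((mem_union.1 hu).resolve_right h1) huv.symm e.symm).symm
    · rw [e, c2 u ((mem_union.1 hu).resolve_right h1) v ((mem_union.1 hv).resolve_right h2) huv e]

theorem Cl.cyc {D l : ℕ} {p : ℕ → V} (h : Cl G X Z D) (hc : Cyc G X l p) :
    Cl G X (Z ∪ (range l).image p) (16 * D + 15) := by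
  obtain ⟨k, rfl⟩ := hc.odd
  have h1 := h.path (m := k) (p := fun i => p (k + 1 + i))
    (fun a b c d => Nat.add_sub_add_left (k + 1) b a ▸
      hc.seg (Nat.add_le_add_left c (k + 1)) (by omega)) fun a b r c d e => by
      have := hc.geo (Nat.add_le_add_left c (k + 1)) (by omega) e
      omega
  have h2 := h1.path (m := k + 1) (p := p) (fun a b c d => hc.seg c (by omega))
    fun a b r c d e => by
      have := hc.geo c (by omega) e
      omega
  rw [show 16 * D + 15 = 4 * (4 * D + 3) + 3 by ring]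
  refine h2.mono subset_rfl fun v hv => ?_
  simp only [mem_union, mem_image, mem_range] at hv ⊢
  rcases hv with a | ⟨i, a, rfl⟩
  · exact .inl (.inl a)
  · by_cases b : i < k + 1
    · exact .inr ⟨i, b, rfl⟩
    · exact .inl (.inr ⟨i - (k + 1), by omega, congrArg p (by omega)⟩)

theorem top_cl (d : ℕ) : ∀ X : Finset V, Pk G X d →
    ∃ B D, Col G B 2 ∧ D + 1 ≤ 16 ^ d ∧ Cl G X (X \ B) D := by
  induction d using Nat.strong_induction_on with
  | _ d ih =>
  intro X hP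
  by_cases h : ∀ u n, Wk G X u n u → ¬ Odd n
  · exact ⟨X, 0, col_two h, Nat.one_le_pow _ _ (by omega), fun _ => 0, id, by simp, by simp⟩
  push Not at h
  obtain ⟨u, n, a, b⟩ := h
  obtain ⟨l, p, h⟩ := exists_cyc a b
  obtain ⟨e, rfl, h1⟩ := h.pk hP
  obtain ⟨B, D, h2, h3, h4⟩ := ih e e.lt_succ_self _ h1
  refine ⟨B, _, h2, ?_, ((h4.mono sdiff_subset subset_rfl).cyc h).mono subset_rfl fun v hv => ?_⟩
  · rw [pow_succ]
    omega
  · simp only [mem_union, mem_sdiff] at hv ⊢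
    tauto

theorem top_col {d : ℕ} (hP : Pk G X d) (hg : Og G X (2 * 16 ^ d)) : Col G X 6 := by
  obtain ⟨B, D, h1, h2, h3⟩ := top_cl d X hP
  exact h1.add (h3.col (hg.mono subset_rfl (by omega))) fun v a b => mem_sdiff.2 ⟨a, b⟩

end Pool.Agent.Lib.MP_2abbea_co.Fc
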