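import Mathlib

/-! Walks inside a vertex set, colourings, shortest odd cycles. -/

namespace Pool.Agent.Lib.MP_2abbea_co.Fc

open Finset

variable {V : Type} {G : SimpleGraph V} {X Y Z : Finset V} {u v w : V} {n m : ℕ}

/-- A walk of given length inside `X`. -/
inductive Wk (G : SimpleGraph V) (X : Finset V) (u : V) : ℕ → V → Prop
  | nil : u ∈ X → Wk G X u 0 u
  | snoc {n : ℕ} {v w : V} : Wk G X u n v → G.Adj v w → w ∈ X → Wk G X u (n + 1) w

theorem Wk.right (h : Wk G X u n v) : v ∈ X := by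
  cases h <;> assumption

theorem Wk.left (h : Wk G X u n v) : u ∈ X := by
  induction h <;> assumption

theorem Wk.trans (h : Wk G X u n v) (h' : Wk G X v m w) : Wk G X u (n + m) w := by
  induction h' with
  | nil => exact h
  | snoc _ a b ih => exact ih.snoc a b

theorem Wk.symm (h : Wk G X u n v) : Wk G X v n u := by
  induction h with
  | nil a => exact .nil a
  | snoc a b c ih => exact Nat.add_comm _ _ ▸ ((Wk.nil c).snoc b.symm a.right).trans ih

theorem Wk.mono (h : Wk G X u n v) (hXY : X ⊆ Y) : Wk G Y u n v := by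
  induction h with
  | nil a => exact .nil (hXY a)
  | snoc _ b c ih => exact ih.snoc b (hXY c)

theorem Wk.fn (h : Wk G X u n v) : ∃ p : ℕ → V, p 0 = u ∧ p n = v ∧ (∀ i ≤ n, p i ∈ X) ∧
    ∀ i < n, G.Adj (p i) (p (i + 1)) := by
  induction h with
  | nil a => exact ⟨fun _ => u, rfl, rfl, fun _ _ => a, fun _ h => absurd h (Nat.not_lt_zero _)⟩
  | @snoc n v w _ b c ih =>
    obtain ⟨p, h1, h2, h3, h4⟩ := ih
    refine ⟨fun i => if i ≤ n then p i else w, by simpa, by simp, fun i _ => ?_, fun i hi => ?_⟩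
    · dsimp only
      split_ifs with h
      exacts [h3 i h, c]
    · dsimp only
      rw [if_pos (by omega)]
      split_ifs with h
      · exact h4 i h
      · rwa [show i = n by omega, h2]

/-- Every odd closed walk inside `X` has length at least `g`. -/
def Og (G : SimpleGraph V) (X : Finset V) (g : ℕ) : Prop :=
  ∀ u n, Wk G X u n u → Odd n → g ≤ n

theorem Og.mono {g g' : ℕ} (h : Og G Y g) (hXY : X ⊆ Y) (hg : g' ≤ g) : Og G X g' :=
  fun u n a b => hg.trans (h u n (a.mono hXY) b)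

/-- `X` has a proper colouring with `m` colours. -/
def Col (G : SimpleGraph V) (X : Finset V) (m : ℕ) : Prop :=
  ∃ c : V → ℕ, (∀ v ∈ X, c v < m) ∧ ∀ u ∈ X, ∀ v ∈ X, G.Adj u v → c u ≠ c v

theorem Col.mono (h : Col G Y n) (hXY : X ⊆ Y) (hn : n ≤ m) : Col G X m :=
  let ⟨c, a, b⟩ := h
  ⟨c, fun v hv => (a v (hXY hv)).trans_le hn, fun u hu v hv => b u (hXY hu) v (hXY hv)⟩

theorem Col.add (h : Col G X n) (h' : Col G Y m) (hZ : ∀ v ∈ Z, v ∉ X → v ∈ Y) :
    Col G Z (n + m) := by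
  classical
  obtain ⟨c, a, b⟩ := h
  obtain ⟨c', a', b'⟩ := h'
  refine ⟨fun v => if v ∈ X then c v else n + c' v, fun v hv => ?_, fun u hu v hv huv => ?_⟩
  · dsimp only
    split_ifs with h
    · have := a v h
      omega
    · have := a' v (hZ v hv h)
      omega
  · dsimp only
    split_ifs with h1 h2 h2
    · exact b u h1 v h2 huv
    · have := a u h1
      omega
    · have := a v h2
      omega
    · have := b' u (hZ u hu h1) v (hZ v hv h2) huv
      omega

theorem Col.sep (h : Col G X n) (h' : Col G Y n) (hZ : ∀ v ∈ Z, v ∉ X → v ∈ Y)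
    (hs : ∀ u ∈ X, ∀ v ∈ Y, ¬ G.Adj u v) : Col G Z n := by
  classical
  obtain ⟨c, a, b⟩ := h
  obtain ⟨c', a', b'⟩ := h'
  refine ⟨fun v => if v ∈ X then c v else c' v, fun v hv => ?_, fun u hu v hv huv => ?_⟩
  · dsimp only
    split_ifs with h
    exacts [a v h, a' v (hZ v hv h)]
  · dsimp only
    split_ifs with h1 h2 h2
    · exact b u h1 v h2 huv
    · exact absurd huv (hs u h1 v (hZ v hv h2))
    · exact absurd huv.symm (hs v h2 u (hZ u hu h1))
    · exact b' u (hZ u hu h1) v (hZ v hv h2) huv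

theorem col_empty : Col G ∅ n := ⟨fun _ => 0, by simp, by simp⟩

theorem col_cen {K : ℕ} (cls : V → ℕ) (cen : V → V) (len : V → ℕ) (h0 : ∀ v ∈ Z, cls v < K)
    (h1 : ∀ v ∈ Z, Wk G Y (cen v) (len v) v)
    (h2 : ∀ u ∈ Z, ∀ v ∈ Z, G.Adj u v → cls u = cls v → cen u = cen v)
    (h3 : ∀ u ∈ Z, ∀ v ∈ Z, ∀ z, Wk G Y z (len u + 1 + len v) z → ¬ Odd (len u + 1 + len v)) :
    Col G Z (2 * K) := by
  refine ⟨fun v => 2 * cls v + len v % 2, fun v hv => ?_, fun u hu v hv huv e => ?_⟩
  · have := h0 v hv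
    dsimp only
    omega
  · dsimp only at e
    have h4 := ((h1 u hu).snoc huv (h1 v hv).right).trans (h1 v hv).symm
    rw [← h2 u hu v hv huv (by omega)] at h4
    exact h3 u hu v hv _ h4 (Nat.odd_iff.2 (by omega))

theorem col_two (h : ∀ u n, Wk G X u n u → ¬ Odd n) : Col G X 2 := by
  have h1 : ∀ v, ∃ n, v ∈ X →
      Wk G X (@Classical.epsilon V ⟨v⟩ fun z => ∃ n, Wk G X z n v) n v := fun v => by
    by_cases hv : v ∈ X
    · obtain ⟨n, hn⟩ := Classical.epsilon_spec (p := fun z => ∃ n, Wk G X z n v) ⟨v, 0, .nil hv⟩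
      exact ⟨n, fun _ => hn⟩
    · exact ⟨0, fun a => absurd a hv⟩
  choose len hlen using h1
  refine col_cen (K := 1) (fun _ => 0) _ len (fun _ _ => one_pos) hlen
    (fun u hu v hv huv _ => congrArg (@Classical.epsilon V ⟨u⟩) (funext fun z => propext
      ⟨fun ⟨n, a⟩ => ⟨_, a.snoc huv hv⟩, fun ⟨n, a⟩ => ⟨_, a.snoc huv.symm hu⟩⟩))
    fun _ _ _ _ z a => h z _ a

/-- A shortest odd closed walk. -/
structure Cyc (G : SimpleGraph V) (X : Finset V) (l : ℕ) (p : ℕ → V) : Prop where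
  odd : Odd l
  og : Og G X l
  cl : p l = p 0
  mem : ∀ i ≤ l, p i ∈ X
  adj : ∀ i < l, G.Adj (p i) (p (i + 1))

theorem exists_cyc (h : Wk G X u n u) (hn : Odd n) : ∃ l p, Cyc G X l p := by
  classical
  have h1 : ∃ n, Odd n ∧ ∃ u, Wk G X u n u := ⟨n, hn, u, h⟩
  obtain ⟨h2, u, h3⟩ := Nat.find_spec h1
  obtain ⟨p, a, b, c, d⟩ := h3.fn
  exact ⟨_, p, h2, fun u n x y => Nat.find_min' h1 ⟨y, u, x⟩, b.trans a.symm, c, d⟩

variable {l : ℕ} {p : ℕ → V}

theorem Cyc.seg (h : Cyc G X l p) {a b : ℕ} (hab : a ≤ b) (hb : b ≤ l) :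
    Wk G X (p a) (b - a) (p b) := by
  induction b, hab using Nat.le_induction with
  | base => exact Nat.sub_self a ▸ .nil (h.mem a hb)
  | succ b hab ih =>
    rw [show b + 1 - a = b - a + 1 by omega]
    exact (ih (by omega)).snoc (h.adj b hb) (h.mem _ hb)

theorem Cyc.geo (h : Cyc G X l p) {a b r : ℕ} (hab : a ≤ b) (hb : b ≤ l)
    (hr : Wk G X (p a) r (p b)) : b ≤ a + r ∨ l + a ≤ b + r := by
  have h1 := h.og _ _ (hr.trans (h.seg hab hb).symm)
  have h2 := h.og _ _ ((hr.trans (h.cl ▸ h.seg hb le_rfl)).trans (h.seg a.zero_le (hab.trans hb)))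
  have h3 := h.odd
  rw [Nat.odd_iff] at h1 h2 h3
  omega

/-- Every subset of `X` has an independent subset of at least half its size minus `d / 2`. -/
def Pk (G : SimpleGraph V) (X : Finset V) (d : ℕ) : Prop :=
  ∀ S ⊆ X, ∃ I ⊆ S, (∀ u ∈ I, ∀ v ∈ I, ¬ G.Adj u v) ∧ S.card ≤ 2 * I.card + d

theorem Pk.mono {d : ℕ} (h : Pk G Y d) (hXY : X ⊆ Y) : Pk G X d :=
  fun S hS => h S (hS.trans hXY)

variable [DecidableEq V]

theorem Cyc.sub (h : Cyc G X l p) : (range l).image p ⊆ X := fun v hv => by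
  obtain ⟨i, a, rfl⟩ := mem_image.1 hv
  exact h.mem i (mem_range.1 a).le

theorem Cyc.card (h : Cyc G X l p) : ((range l).image p).card = l := by
  have key : ∀ a b, a < b → b < l → p a ≠ p b := fun a b h1 h2 e => by
    have := h.geo (r := 0) h1.le h2.le (by rw [e]; exact .nil (h.mem b h2.le))
    omega
  rw [card_image_of_injOn, card_range]
  intro a ha b hb e
  rcases lt_trichotomy a b with c | c | c
  · exact absurd e (key a b c (by simpa using hb))
  · exact c
  · exact absurd e.symm (key b a c (by simpa using ha))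

theorem Cyc.ind (h : Cyc G X l p) {I : Finset V} (hI : ∀ u ∈ I, ∀ v ∈ I, ¬ G.Adj u v) :
    2 * (I ∩ (range l).image p).card + 1 ≤ l := by
  let J := (range l).filter fun i => p i ∈ I
  let s : ℕ → ℕ := fun i => if i + 1 = l then 0 else i + 1
  have h1 : (I ∩ (range l).image p).card ≤ J.card := by
    refine (card_le_card fun v hv => ?_).trans (card_image_le (f := p))
    obtain ⟨a, b⟩ := mem_inter.1 hv
    obtain ⟨i, c, rfl⟩ := mem_image.1 b
    exact mem_image_of_mem _ (mem_filter.2 ⟨c, a⟩)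
  have h2 : (J.image s).card = J.card := card_image_of_injOn fun a _ b _ e => by
    simp only [s] at e
    split_ifs at e <;> omega
  have h3 : Disjoint J (J.image s) := disjoint_right.2 fun j hj hj' => by
    obtain ⟨i, a, rfl⟩ := mem_image.1 hj
    obtain ⟨b, c⟩ := mem_filter.1 a
    refine hI _ c _ (mem_filter.1 hj').2 ?_
    have := h.adj i (mem_range.1 b)
    simp only [s]
    split_ifs with e
    · rwa [e, h.cl] at this
    · exact this
  have h4 : J ∪ J.image s ⊆ range l := union_subset (filter_subset _ _) fun j hj => by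
    obtain ⟨i, a, rfl⟩ := mem_image.1 hj
    have := mem_range.1 (mem_filter.1 a).1
    simp only [s, mem_range]
    split_ifs <;> omega
  have h5 := card_le_card h4
  have h6 := Nat.odd_iff.1 h.odd
  rw [card_union_of_disjoint h3, card_range] at h5
  omega

theorem Cyc.pk {d : ℕ} (h : Cyc G X l p) (hP : Pk G X d) :
    ∃ e, d = e + 1 ∧ Pk G (X \ (range l).image p) e := by
  have key : ∀ S ⊆ X \ (range l).image p, ∃ I ⊆ S, (∀ u ∈ I, ∀ v ∈ I, ¬ G.Adj u v) ∧
      S.card + 1 ≤ 2 * I.card + d := fun S hS => by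
    obtain ⟨I, a, b, c⟩ := hP (S ∪ (range l).image p)
      (union_subset (hS.trans sdiff_subset) h.sub)
    refine ⟨I \ (range l).image p, fun v hv => ?_,
      fun u hu v hv => b u (mem_sdiff.1 hu).1 v (mem_sdiff.1 hv).1, ?_⟩
    · exact (mem_union.1 (a (mem_sdiff.1 hv).1)).resolve_right (mem_sdiff.1 hv).2
    · have h1 := h.ind b
      have h2 := card_sdiff_add_card_inter I ((range l).image p)
      rw [card_union_of_disjoint (disjoint_left.2 fun v hv => (mem_sdiff.1 (hS hv)).2), h.card] at c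
      omega
  obtain ⟨I, a, -, c⟩ := key ∅ (empty_subset _)
  rw [subset_empty.1 a] at c
  refine ⟨d - 1, by simp at c; omega, fun S hS => ?_⟩
  obtain ⟨I, a, b, e⟩ := key S hS
  exact ⟨I, a, b, by simp at c; omega⟩

theorem peel (L d : ℕ) : ∀ X : Finset V, Pk G X d →
    ∃ U ⊆ X, U.card ≤ d * L ∧ Og G (X \ U) (L + 1) := by
  induction d using Nat.strong_induction_on with
  | _ d ih =>
  intro X hP
  by_cases h : Og G X (L + 1)
  · exact ⟨∅, empty_subset _, by simp, h.mono sdiff_subset le_rfl⟩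
  unfold Og at h
  push Not at h
  obtain ⟨u, n, a, b, c⟩ := h
  obtain ⟨l, p, h⟩ := exists_cyc a b
  obtain ⟨e, rfl, h1⟩ := h.pk hP
  obtain ⟨U, h2, h3, h4⟩ := ih e e.lt_succ_self _ h1
  refine ⟨(range l).image p ∪ U, union_subset h.sub (h2.trans sdiff_subset), ?_,
    h4.mono (fun v hv => by simpa [and_assoc] using hv) le_rfl⟩
  have h5 := card_union_le ((range l).image p) U
  have h6 := h.og u n a b
  rw [h.card] at h5
  rw [Nat.succ_mul]
  omega

end Pool.Agent.Lib.MP_2abbea_co.Fc
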