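import Pool.Agent.Lib.MP_2abbea_co.FcWalk

/-! Weighted region growing round a shortest odd cycle. -/

namespace Pool.Agent.Lib.MP_2abbea_co.Fr

open Finset Pool.Agent.Lib.MP_2abbea_co.Fc

variable {V : Type} {G : SimpleGraph V}

/-- Every independent subset of `Y` misses half of `Y` by `j / 2`. -/
def Df (G : SimpleGraph V) (Y : Finset V) (j : ℕ) : Prop :=
  ∀ I ⊆ Y, (∀ u ∈ I, ∀ v ∈ I, ¬ G.Adj u v) → 2 * I.card + j ≤ Y.card

theorem df_empty : Df G ∅ 0 := fun I hI _ => by simp [subset_empty.1 hI]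

theorem grow {q t : ℕ} (hq : 0 < q) (ht : 0 < t) (a : ℕ → ℝ) {δ N : ℝ} (hδ : 0 ≤ δ)
    (h0 : δ ≤ a 0) (hN : N < 2 ^ t) (hM : ∀ r, a r ≤ N * δ) :
    ∃ r < q * t, a (r + 1) ≤ (1 + 1 / q) * a r := by
  by_contra hc
  push Not at hc
  have hq' : (0 : ℝ) < q := by exact_mod_cast hq
  have hp : (0 : ℝ) < 1 / q := by positivity
  have hρ : (0 : ℝ) < 1 + 1 / q := by positivity
  have h1 : ∀ r ≤ q * t, (1 + 1 / q : ℝ) ^ r * δ ≤ a r := fun r hr => by
    induction r with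
    | zero => simpa using h0
    | succ r ih =>
      rw [pow_succ', mul_assoc]
      exact (mul_le_mul_of_nonneg_left (ih (by omega)) hρ.le).trans (hc r hr).le
  have h2 : (2 : ℝ) ^ t ≤ (1 + 1 / q) ^ (q * t) := by
    rw [pow_mul]
    refine pow_le_pow_left₀ (by norm_num) ?_ t
    have := one_add_mul_le_pow (a := (1 / q : ℝ)) (by linarith) q
    rw [mul_one_div_cancel hq'.ne'] at this
    linarith
  have h3 := (mul_le_mul_of_nonneg_right h2 hδ).trans ((h1 _ le_rfl).trans (hM _))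
  have h4 : δ = 0 := le_antisymm (by nlinarith) hδ
  have h5 := hc 0 (by positivity)
  have h6 := hM (0 + 1)
  have h7 := mul_nonneg hρ.le (hδ.trans h0)
  rw [h4] at h6
  linarith

theorem par {X : Finset V} {l a b m : ℕ} {p : ℕ → V} (h : Cyc G X l p) (hab : a ≤ b) (hb : b ≤ l)
    (hr : Wk G X (p a) m (p b)) :
    ((m + a + b) % 2 = 1 → l + a ≤ m + b) ∧ ((m + a + b) % 2 = 0 → b ≤ m + a) := by
  have h1 := h.og _ _ (hr.trans (h.seg hab hb).symm)
  have h2 := h.og _ _ ((hr.trans (h.cl ▸ h.seg hb le_rfl)).trans (h.seg a.zero_le (hab.trans hb)))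
  have h3 := h.odd
  rw [Nat.odd_iff] at h1 h2 h3
  omega

variable [DecidableEq V]

theorem Df.ext {Y H : Finset V} {j l : ℕ} {p : ℕ → V} (h : Df G Y j) (hd : Disjoint Y H)
    (hc : Cyc G H l p) : Df G (Y ∪ (range l).image p) (j + 1) ∧
      (Y ∪ (range l).image p).card = Y.card + l := by
  have e : (Y ∪ (range l).image p).card = Y.card + l := by
    rw [card_union_of_disjoint (hd.mono_right hc.sub), hc.card]
  refine ⟨fun I hI hi => ?_, e⟩
  have h1 := hc.ind hi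
  have h2 := h (I \ (range l).image p)
    (fun v hv => (mem_union.1 (hI (mem_sdiff.1 hv).1)).resolve_right (mem_sdiff.1 hv).2)
    fun u hu v hv => hi u (mem_sdiff.1 hu).1 v (mem_sdiff.1 hv).1
  have h3 := card_sdiff_add_card_inter I ((range l).image p)
  omega

theorem sum_un {w : V → ℝ} (hw : ∀ v, 0 ≤ w v) (A B : Finset V) :
    ∑ v ∈ A ∪ B, w v ≤ ∑ v ∈ A, w v + ∑ v ∈ B, w v := by
  rw [← sum_union_inter]
  exact le_add_of_nonneg_right (sum_nonneg fun v _ => hw v)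

theorem cut {H B : Finset V} {l q r : ℕ} {p : ℕ → V} (hc : Cyc G H l p) (hq : 0 < q)
    (hl : 10 * r + 2 * q + 2 ≤ l) {w : V → ℝ} (hw : ∀ v, 0 ≤ w v)
    (hB : ∀ x ∈ B, ∃ i < l, ∃ d ≤ r, Wk G H (p i) d x) :
    ∃ A, ∑ v ∈ A, w v ≤ 1 / q * ∑ v ∈ B, w v ∧ Col G (B \ A) 2 := by
  classical
  have h1 : ∀ x, ∃ i d, x ∈ B → i < l ∧ d ≤ r ∧ Wk G H (p i) d x := fun x => by
    by_cases hx : x ∈ B
    · obtain ⟨i, a, d, b, c⟩ := hB x hx
      exact ⟨i, d, fun _ => ⟨a, b, c⟩⟩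
    · exact ⟨0, 0, fun c => absurd c hx⟩
  choose π d h1 using h1
  have h0 : ∀ x, ∃ D, x ∈ B → Wk G H (p 0) D x ∧ ∀ n, Wk G H (p 0) n x → D ≤ n := fun x => by
    by_cases hx : x ∈ B
    · obtain ⟨a, -, c⟩ := h1 x hx
      have e : ∃ n, Wk G H (p 0) n x := ⟨_, (hc.seg (π x).zero_le a.le).trans c⟩
      exact ⟨Nat.find e, fun _ => ⟨Nat.find_spec e, fun n => Nat.find_min' e⟩⟩
    · exact ⟨0, fun c => absurd c hx⟩
  choose D h0 using h0
  have hq' : (q : ℝ) ≠ 0 := by exact_mod_cast hq.ne'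
  obtain ⟨c, hi, h2⟩ := exists_le_of_sum_le (s := Ico (3 * r + 1) (3 * r + 1 + q))
    ⟨3 * r + 1, mem_Ico.2 (by omega)⟩ (f := fun i => ∑ v ∈ B with D v = i, w v)
    (g := fun _ => 1 / q * ∑ v ∈ B, w v) (by
      rw [sum_const, Nat.card_Ico, Nat.add_sub_cancel_left, nsmul_eq_mul, ← mul_assoc,
        mul_one_div_cancel hq', one_mul]
      exact sum_fiberwise_le_sum_of_sum_fiber_nonneg fun _ _ => sum_nonneg fun v _ => hw v)
  rw [mem_Ico] at hi
  have key : ∀ x ∈ B \ B.filter fun v => D v = c, ∀ y ∈ B \ B.filter fun v => D v = c,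
      G.Adj x y → π x ≤ π y →
      (π x + d x + if π x ≤ 6 * r + q + 1 ∧ D x < c then 1 else 0) % 2 ≠
        (π y + d y + if π y ≤ 6 * r + q + 1 ∧ D y < c then 1 else 0) % 2 := by
    intro x hx y hy e hxy
    obtain ⟨a1, a2⟩ := mem_sdiff.1 hx
    obtain ⟨b1, b2⟩ := mem_sdiff.1 hy
    have a6 : D x ≠ c := fun k => a2 (mem_filter.2 ⟨a1, k⟩)
    have b6 : D y ≠ c := fun k => b2 (mem_filter.2 ⟨b1, k⟩)
    obtain ⟨a3, a4, a5⟩ := h1 x a1
    obtain ⟨b3, b4, b5⟩ := h1 y b1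
    have k1 := par hc hxy b3.le ((a5.snoc e b5.right).trans b5.symm)
    have k2 := (h0 x a1).2 _ ((h0 y b1).1.snoc e.symm a5.right)
    have k3 := (h0 y b1).2 _ ((h0 x a1).1.snoc e b5.right)
    have k4 := (h0 x a1).2 _ ((hc.seg (π x).zero_le a3.le).trans a5)
    have k5 := hc.geo (π x).zero_le a3.le ((h0 x a1).1.trans a5.symm)
    split_ifs <;> omega
  refine ⟨_, h2, fun x => (π x + d x + if π x ≤ 6 * r + q + 1 ∧ D x < c then 1 else 0) % 2,
    fun x _ => Nat.mod_lt _ two_pos, fun x hx y hy e => ?_⟩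
  rcases le_total (π x) (π y) with f | f
  exacts [key x hx y hy e f, (key y hy x hx e.symm f).symm]

theorem carve {q lam : ℕ} (hq : 0 < q) {w : V → ℝ} (hw : ∀ v, 0 ≤ w v) {W : ℝ}
    (hA : ∀ (Y : Finset V) (j L : ℕ), Df G Y (j + 1) → Y.card ≤ (j + 1) * L → lam ≤ L →
      42 * q * Nat.log 2 (j + 2) ≤ L) (H : Finset V) :
    ∀ (j : ℕ) (Y : Finset V) (L : ℕ), Disjoint Y H → Df G Y j → Y.card ≤ j * L → Og G H L →
      Og G H lam → ∑ v ∈ H, w v ≤ W →
      ∃ T, ∑ v ∈ T, w v ≤ 2 * (1 / q) * ∑ v ∈ H, w v + 1 / q * (W / (j + 1)) ∧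
        Col G (H \ T) 2 := by
  classical
  induction H using Finset.strongInduction with
  | H H ih =>
  intro j Y L hd hY hL hg hl hW
  have hH : 0 ≤ ∑ v ∈ H, w v := sum_nonneg fun v _ => hw v
  have hW0 : 0 ≤ W := hH.trans hW
  by_cases h : ∀ u n, Wk G H u n u → ¬ Odd n
  · exact ⟨∅, by rw [sum_empty]; positivity, (col_two h).mono sdiff_subset le_rfl⟩
  push Not at h
  obtain ⟨u, n, a, b⟩ := h
  obtain ⟨l, p, hc⟩ := exists_cyc a b
  have hl0 : 0 < l := hc.odd.pos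
  have hpl : Wk G H (p 0) l (p 0) := by simpa [hc.cl] using hc.seg l.zero_le le_rfl
  have e1 := hg _ _ hpl hc.odd
  obtain ⟨f1, f2⟩ := hY.ext hd hc
  have f3 : (Y ∪ (range l).image p).card ≤ (j + 1) * l := by
    have := Nat.mul_le_mul_left j e1
    rw [f2, Nat.succ_mul]
    omega
  have e3 := hA _ j l f1 f3 (hl _ _ hpl hc.odd)
  have g1 : 0 < Nat.log 2 (j + 2) := Nat.log_pos (by norm_num) (by omega)
  have g2 : j + 2 < 2 ^ (Nat.log 2 (j + 2) + 1) := Nat.lt_pow_succ_log_self (by norm_num) _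
  generalize Nat.log 2 (j + 2) = g at e3 g1 g2
  let B : ℕ → Finset V := fun r => H.filter fun x => ∃ i < l, ∃ d ≤ r, Wk G H (p i) d x
  have hB : ∀ r, B r ⊆ H := fun r => filter_subset _ _
  have hs : ∀ A ⊆ H, ∑ v ∈ A, w v ≤ W := fun A hA =>
    (sum_le_sum_of_subset_of_nonneg hA fun v _ _ => hw v).trans hW
  have hj : (0 : ℝ) < j + 1 := by positivity
  have hj' : (0 : ℝ) < j + 1 + 1 := by positivity
  obtain ⟨r, hr, h1⟩ := grow (t := 2 * (g + 1)) hq (by omega)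
    (fun r => ∑ v ∈ B r, w v + W / ((j + 1) * (j + 1 + 1))) (δ := W / ((j + 1) * (j + 1 + 1)))
    (N := (j + 1) * (j + 1 + 1) + 1) (by positivity)
    (le_add_of_nonneg_left (sum_nonneg fun v _ => hw v)) (by
      have : ((j : ℝ) + 2) < 2 ^ (g + 1) := by exact_mod_cast g2
      rw [pow_mul', sq]
      nlinarith) fun r => by
      rw [add_one_mul (_ * _ : ℝ), mul_div_cancel₀ _ (by positivity)]
      exact add_le_add (hs _ (hB r)) le_rfl
  have h2 : B r ⊆ B (r + 1) := fun x hx =>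
    let ⟨a, i, b, d, c, e⟩ := mem_filter.1 hx
    mem_filter.2 ⟨a, i, b, d, c.trans r.le_succ, e⟩
  have h3 : (range l).image p ⊆ B (r + 1) := fun x hx => by
    obtain ⟨i, a, rfl⟩ := mem_image.1 hx
    have := hc.mem i (mem_range.1 a).le
    exact mem_filter.2 ⟨this, i, mem_range.1 a, 0, Nat.zero_le _, .nil this⟩
  obtain ⟨A, a1, a2⟩ := cut (B := B r) (r := r) hc hq (by
      have k1 : q * 1 ≤ q * g := Nat.mul_le_mul_left _ g1
      have k2 : q * (2 * (g + 1)) = 2 * (q * g) + 2 * q := by ring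
      rw [mul_assoc] at e3
      omega) hw fun x hx => (mem_filter.1 hx).2
  obtain ⟨T, t1, t2⟩ := ih (H \ B (r + 1))
    (sdiff_ssubset (hB _) ⟨p 0, h3 (mem_image_of_mem _ (mem_range.2 hl0))⟩) (j + 1) _ l
    (disjoint_union_left.2 ⟨hd.mono_right sdiff_subset, disjoint_sdiff.mono_left h3⟩) f1 f3
    (hc.og.mono sdiff_subset le_rfl) (hl.mono sdiff_subset le_rfl) (hs _ sdiff_subset)
  refine ⟨T ∪ (B (r + 1) \ B r ∪ A), ?_, a2.sep t2 (fun x a b => ?_) fun x a y b c => ?_⟩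
  · have h5 := sum_un hw T (B (r + 1) \ B r ∪ A)
    have h6 := sum_un hw (B (r + 1) \ B r) A
    have h7 := sum_sdiff (f := w) h2
    have h8 := sum_sdiff (f := w) (hB (r + 1))
    have h9 : 0 ≤ ∑ v ∈ B (r + 1) \ B r, w v := sum_nonneg fun v _ => hw v
    have h10 : W / (j + 1) = W / (j + 1 + 1) + W / ((j + 1) * (j + 1 + 1)) := by
      field_simp
    have h11 : (0 : ℝ) ≤ 1 / q := by positivity
    have h12 := mul_nonneg h11 h9
    push_cast at t1
    rw [h10, ← h8, ← h7]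
    rw [← h7] at h1
    nlinarith
  · simp only [mem_sdiff, mem_union] at a b ⊢
    tauto
  · obtain ⟨-, i, e, d, f, k⟩ := mem_filter.1 (mem_sdiff.1 a).1
    obtain ⟨g, h⟩ := mem_sdiff.1 (mem_sdiff.1 b).1
    exact h (mem_filter.2 ⟨g, i, e, d + 1, by omega, k.snoc c g⟩)

theorem peel [Fintype V] {N lam : ℕ}
    (hA : ∀ Y : Finset V, Df G Y (N + 1) → ¬ Y.card + (N + 1) ≤ (N + 1) * lam) (m : ℕ) :
    ∀ (j : ℕ) (Y : Finset V), j + m = N + 1 → Df G Y j → Y.card + j ≤ j * lam →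
      ∃ S : Finset V, S.card ≤ N * lam ∧ Og G (univ \ S) lam := by
  induction m with
  | zero =>
    intro j Y e a b
    obtain rfl : j = N + 1 := e
    exact absurd b (hA Y a)
  | succ m ih =>
    intro j Y e a b
    by_cases h : Og G (univ \ Y) lam
    · have := Nat.mul_le_mul_right lam (show j ≤ N by omega)
      exact ⟨Y, by omega, h⟩
    unfold Og at h
    push Not at h
    obtain ⟨u, n, c, d, f⟩ := h
    obtain ⟨l, p, hc⟩ := exists_cyc c d
    obtain ⟨f1, f2⟩ := a.ext disjoint_sdiff hc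
    have := hc.og u n c d
    refine ih (j + 1) _ (by omega) f1 ?_
    rw [f2, Nat.succ_mul]
    omega

end Pool.Agent.Lib.MP_2abbea_co.Fr
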