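import Pool.Agent.Lib.MP_2abbea_co.Sub

set_option autoImplicit false

namespace Pool.Agent.MP_2abbea_co

open Finset

/-- Successor, stationary at the last element. -/
def nx {N : ℕ} (j : Fin N) : Fin N := if h : j.val + 1 < N then ⟨j.val + 1, h⟩ else j

theorem nx_spec {N : ℕ} (j : Fin N) :
    ((nx j).val = j.val + 1 ∧ j.val + 1 < N) ∨ ((nx j).val = j.val ∧ N ≤ j.val + 1) := by
  unfold nx
  split_ifs with h
  · exact Or.inl ⟨rfl, h⟩
  · exact Or.inr ⟨rfl, by omega⟩

/-- Branch vertices: `m` rows and `2 m` columns. -/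
abbrev Bv (m : ℕ) := Fin m × Fin (2 * m)

/-- First end of a grid edge. -/
def gs {m : ℕ} (w : Bv m × Bool) : Bv m := w.1

/-- Second end of a grid edge. -/
def gt {m : ℕ} : Bv m × Bool → Bv m
  | (b, true) => (b.1, nx b.2)
  | (b, false) => (nx b.1, b.2)

/-- Bottom end of a twisted edge. -/
def gp {m : ℕ} (e : Fin m) : Bv m :=
  (⟨m - 1, by have := e.2; omega⟩, ⟨2 * e.val, by have := e.2; omega⟩)

/-- Top end of a twisted edge. -/
def gq {m : ℕ} (e : Fin m) : Bv m :=
  (⟨0, by have := e.2; omega⟩, ⟨2 * m - 1 - 2 * e.val, by have := e.2; omega⟩)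

open Classical in
/-- Indicator with values in the field with two elements. -/
noncomputable def ind (A : Prop) : ZMod 2 := if A then 1 else 0

theorem ind_eq {A B C D : Prop} (h : (A ↔ B) ↔ (C ↔ D)) : ind A + ind B = ind C + ind D := by
  have z : (1 : ZMod 2) + 1 = 0 := by decide
  by_cases a : A <;> by_cases b : B <;> by_cases c : C <;> by_cases d : D <;>
    simp [ind, a, b, c, d, z] at h ⊢

theorem ind_eq0 {A B C D : Prop} (h : (A ↔ B) ↔ (C ↔ D)) :
    ind A + ind B + 0 = ind C + ind D := by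
  rw [add_zero]
  exact ind_eq h

theorem ind_eq1 {A B C D : Prop} (h : (A ↔ B) ↔ ¬ (C ↔ D)) :
    ind A + ind B + 1 = ind C + ind D := by
  have z : (1 : ZMod 2) + 1 = 0 := by decide
  by_cases a : A <;> by_cases b : B <;> by_cases c : C <;> by_cases d : D <;>
    simp [ind, a, b, c, d, z] at h ⊢

/-- The edges crossed by the ray that leaves `v` to the left, just below its row. -/
noncomputable def ray {m : ℕ} (v : Bv m) : (Bv m × Bool) ⊕ Fin m → ZMod 2
  | Sum.inl (_, true) => ind (m + 1 = 0)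
  | Sum.inl (b, false) => ind (b.1.val = v.1.val ∧ b.1.val + 1 < m ∧ b.2.val < v.2.val)
  | Sum.inr e => ind (v.1.val + 1 = m ∧ 2 * e.val < v.2.val)

/-- An initial piece of a row. -/
noncomputable def rowI {m : ℕ} (i j : ℕ) (b : Bv m) : ZMod 2 := ind (b.1.val = i ∧ b.2.val < j)

theorem ne_val {m : ℕ} {U : Set (Bv m)} {a b : Bv m} (ha : a ∈ U) (hb : b ∈ Uᶜ) :
    ¬ (a.1.val = b.1.val ∧ a.2.val = b.2.val) := by
  rintro ⟨h1, h2⟩
  have : a = b := Prod.ext (Fin.ext h1) (Fin.ext h2)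
  exact hb (this ▸ ha)

theorem grid_alt {m : ℕ} (U : Set (Bv m)) :
    BalF (gs (m := m)) gt gp gq U ∨ BalF (gs (m := m)) gt gp gq Uᶜ := by
  have z1 : ∀ a b : ZMod 2, 0 = a + b → a = b := by decide
  have z2 : ∀ a b : ZMod 2, 1 = a + b → a ≠ b := by decide
  have z3 : ∀ a b : ZMod 2, a + b = 0 → a = b := by decide
  have z4 : ∀ a b : ZMod 2, a + b + 1 = 0 → a ≠ b := by decide
  rcases dual_alt (Sum.elim (gs (m := m)) gp) (Sum.elim gt gq)
    (Sum.elim (fun _ => 0) fun _ => 1) U with ⟨φ, h⟩ | ⟨f, h1, h2⟩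
  · exact Or.inl ⟨φ, fun w a b => z1 _ _ (h (Sum.inl w) a b),
      fun e a b => z2 _ _ (h (Sum.inr e) a b)⟩
  refine Or.inr ⟨fun v => f (ray v), ?_, ?_⟩
  · rintro ⟨b0, β0⟩ a1 a2
    apply z3
    rw [← map_add]
    cases β0
    · refine h2 _ (rowI (b0.1.val + 1) b0.2.val) ?_
      have s0 := nx_spec b0.1
      have l0 := b0.1.2
      rintro (⟨b, β⟩ | e) m1 m2
      · have n1 := ne_val m1 a1
        have n2 := ne_val m1 a2
        have n3 := ne_val m2 a1
        have n4 := ne_val m2 a2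
        have s1 := nx_spec b.1
        have s2 := nx_spec b.2
        have l1 := b.1.2
        cases β <;>
        · dsimp only [Sum.elim_inl, gs, gt] at n1 n2 n3 n4
          refine ind_eq ?_
          dsimp only [Sum.elim_inl, gs, gt]
          omega
      · have n1 := ne_val m1 a1
        have n2 := ne_val m1 a2
        have n3 := ne_val m2 a1
        have n4 := ne_val m2 a2
        have l1 := e.2
        dsimp only [Sum.elim_inr, gs, gt, gp, gq] at n1 n2 n3 n4
        refine ind_eq ?_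
        dsimp only [Sum.elim_inr, gs, gt, gp, gq]
        omega
    · refine h2 _ (rowI 0 0) ?_
      have s0 := nx_spec b0.2
      have l0 := b0.1.2
      rintro (⟨b, β⟩ | e) m1 m2
      · have n1 := ne_val m1 a1
        have n2 := ne_val m1 a2
        cases β <;>
        · dsimp only [Sum.elim_inl, gs, gt] at n1 n2
          refine ind_eq ?_
          dsimp only [Sum.elim_inl, gs, gt]
          omega
      · have n1 := ne_val m1 a1
        have n2 := ne_val m1 a2
        have l1 := e.2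
        dsimp only [Sum.elim_inr, gs, gt, gp, gq] at n1 n2
        refine ind_eq ?_
        dsimp only [Sum.elim_inr, gs, gt, gp, gq]
        omega
  · intro e0 a1 a2
    apply z4
    rw [← h1, ← map_add, ← map_add]
    refine h2 _ (rowI 0 (2 * m - 1 - 2 * e0.val)) ?_
    have l0 := e0.2
    rintro (⟨b, β⟩ | e) m1 m2
    · have n1 := ne_val m1 a1
      have n2 := ne_val m1 a2
      have n3 := ne_val m2 a1
      have n4 := ne_val m2 a2
      have s1 := nx_spec b.1
      have s2 := nx_spec b.2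
      have l1 := b.1.2
      cases β <;>
      · dsimp only [Sum.elim_inl, gs, gt, gp, gq] at n1 n2 n3 n4
        refine ind_eq0 ?_
        dsimp only [Sum.elim_inl, gs, gt, gp, gq]
        omega
    · have n1 := ne_val m1 a1
      have l1 := e.2
      dsimp only [Sum.elim_inr, gp, gq] at n1
      refine ind_eq1 ?_
      dsimp only [Sum.elim_inr, gp, gq]
      omega

/-- Row of a vertex. -/
def rowOf {m : ℕ} (x : Bv m ⊕ (Bv m × Bool)) : ℕ := (Sum.elim id Prod.fst x).1.val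

/-- Column pair of a vertex. -/
def pairOf {m : ℕ} (x : Bv m ⊕ (Bv m × Bool)) : ℕ :=
  if (Sum.elim id Prod.fst x).2.val % 2 = 0 then (Sum.elim id Prod.fst x).2.val / 2
  else (2 * m - 1 - (Sum.elim id Prod.fst x).2.val) / 2

theorem exists_free {α : Type*} (S : Finset α) (m : ℕ) (h : S.card < m) (g : α → ℕ) :
    ∃ i < m, ∀ x ∈ S, g x ≠ i := by
  by_contra hc
  push Not at hc
  have h1 : range m ⊆ S.image g := fun i hi => by
    obtain ⟨x, hx, h2⟩ := hc i (mem_range.1 hi)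
    exact mem_image.2 ⟨x, hx, h2⟩
  have h2 := (card_le_card h1).trans card_image_le
  rw [card_range] at h2
  omega

theorem grid_transversal {m : ℕ} (S₁ S₂ : Set (Bv m ⊕ (Bv m × Bool)))
    (S₃ : Finset (Bv m ⊕ (Bv m × Bool)))
    (h1 : (Gr (gs (m := m)) gt gp gq).IsIndepSet S₁)
    (h2 : (Gr (gs (m := m)) gt gp gq).IsIndepSet S₂)
    (h3 : ∀ x, x ∉ S₃ → x ∈ S₁ ∨ x ∈ S₂) : m ≤ S₃.card := by
  by_contra hc
  obtain ⟨ρ, hρ, fr⟩ := exists_free S₃ m (by omega) rowOf
  obtain ⟨e, he, fp⟩ := exists_free S₃ m (by omega) pairOf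
  have flip : ∀ x y, x ∉ S₃ → y ∉ S₃ → (Gr (gs (m := m)) gt gp gq).Adj x y →
      (x ∈ S₁ ↔ y ∉ S₁) := by
    intro x y hx hy hxy
    constructor
    · exact fun a b => h1 a b hxy.ne hxy
    · intro b
      by_contra a
      exact h2 ((h3 x hx).resolve_left a) ((h3 y hy).resolve_left b) hxy.ne hxy
  have same : ∀ w : Bv m × Bool, Sum.inr w ∉ S₃ → Sum.inl (gs w) ∉ S₃ → Sum.inl (gt w) ∉ S₃ →
      (Sum.inl (gs w) ∈ S₁ ↔ Sum.inl (gt w) ∈ S₁) := fun w a b c =>
    (flip _ _ b a (adj_s w)).trans (flip _ _ c a (adj_t w)).symm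
  have col : ∀ (j : Fin (2 * m)), (j.val = 2 * e ∨ j.val = 2 * m - 1 - 2 * e) →
      ∀ (i : ℕ) (hi : i < m), (Sum.inl (⟨i, hi⟩, j) ∈ S₁ ↔ Sum.inl (⟨0, by omega⟩, j) ∈ S₁) := by
    intro j hj
    have fr1 : ∀ x : Bv m ⊕ (Bv m × Bool), (Sum.elim id Prod.fst x).2 = j → x ∉ S₃ := by
      intro x hx hx'
      apply fp x hx'
      unfold pairOf
      rw [hx]
      split_ifs <;> omega
    intro i
    induction i with
    | zero => intro _; rfl
    | succ i ih =>
      intro hi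
      have := same ((⟨i, by omega⟩, j), false) (fr1 _ rfl) (fr1 _ rfl) (fr1 _ rfl)
      have e1 : gt (((⟨i, by omega⟩, j) : Bv m), false) = (⟨i + 1, hi⟩, j) := by
        simp only [gt, nx, dif_pos hi]
      rw [e1] at this
      exact this.symm.trans (ih (by omega))
  have row : ∀ (j : ℕ) (hj : j < 2 * m),
      (Sum.inl (⟨ρ, hρ⟩, ⟨j, hj⟩) ∈ S₁ ↔ Sum.inl (⟨ρ, hρ⟩, ⟨0, by omega⟩) ∈ S₁) := by
    have fr1 : ∀ x : Bv m ⊕ (Bv m × Bool), rowOf x = ρ → x ∉ S₃ :=
      fun x hx hx' => fr x hx' hx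
    intro j
    induction j with
    | zero => intro _; rfl
    | succ j ih =>
      intro hj
      have := same ((⟨ρ, hρ⟩, ⟨j, by omega⟩), true) (fr1 _ rfl) (fr1 _ rfl) (fr1 _ rfl)
      have e1 : gt (((⟨ρ, hρ⟩, ⟨j, by omega⟩) : Bv m), true) = (⟨ρ, hρ⟩, ⟨j + 1, hj⟩) := by
        simp only [gt, nx, dif_pos hj]
      rw [e1] at this
      exact this.symm.trans (ih (by omega))
  have f1 : Sum.inl (gp ⟨e, he⟩) ∉ S₃ := fun hx => fp _ hx (by
    simp only [pairOf, gp, Sum.elim_inl, id]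
    split_ifs <;> omega)
  have f2 : Sum.inl (gq ⟨e, he⟩) ∉ S₃ := fun hx => fp _ hx (by
    simp only [pairOf, gq, Sum.elim_inl, id]
    split_ifs <;> omega)
  have ne : gp (⟨e, he⟩ : Fin m) ≠ gq ⟨e, he⟩ := by
    intro h
    have := congrArg (fun b : Bv m => b.2.val) h
    simp only [gp, gq] at this
    omega
  have k0 := flip _ _ f1 f2 (adj_direct (⟨e, he⟩ : Fin m) ne)
  have k1 := col ⟨2 * e, by omega⟩ (Or.inl rfl) (m - 1) (by omega)
  have k2 := col ⟨2 * e, by omega⟩ (Or.inl rfl) ρ hρ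
  have k3 := row (2 * e) (by omega)
  have k4 := row (2 * m - 1 - 2 * e) (by omega)
  have k5 := col ⟨2 * m - 1 - 2 * e, by omega⟩ (Or.inr rfl) ρ hρ
  have k6 : Sum.inl (gp ⟨e, he⟩) ∈ S₁ ↔ Sum.inl (gq ⟨e, he⟩) ∈ S₁ :=
    k1.trans (k2.symm.trans (k3.trans (k4.symm.trans k5)))
  exact iff_not_self (k6.symm.trans k0)

end Pool.Agent.MP_2abbea_co
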