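import Pool.Agent.Lib.MP_2abbea_co.Core

set_option autoImplicit false
set_option linter.unusedSimpArgs false

namespace Pool.Agent.MP_2abbea_co

open Finset

variable {B W ι : Type*}

/-- Generating relation: `w : W` subdivides an edge from `s w` to `t w`, `e : ι` is a direct edge. -/
def rel (s t : W → B) (p q : ι → B) : B ⊕ W → B ⊕ W → Prop
  | Sum.inl a, Sum.inl b => ∃ e, p e = a ∧ q e = b
  | Sum.inl a, Sum.inr w => s w = a ∨ t w = a
  | Sum.inr _, _ => False

/-- The graph with the edges of `W` subdivided once and the edges of `ι` direct. -/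
def Gr (s t : W → B) (p q : ι → B) : SimpleGraph (B ⊕ W) := SimpleGraph.fromRel (rel s t p q)

/-- Balanced sets of branch vertices. -/
def BalF (s t : W → B) (p q : ι → B) (U : Set B) : Prop :=
  ∃ φ : B → ZMod 2, (∀ w, s w ∈ U → t w ∈ U → φ (s w) = φ (t w)) ∧
    ∀ e, p e ∈ U → q e ∈ U → φ (p e) ≠ φ (q e)

variable {s t : W → B} {p q : ι → B}

theorem adj_cases {x y : B ⊕ W} (h : (Gr s t p q).Adj x y) :
    (∃ e, (x = Sum.inl (p e) ∧ y = Sum.inl (q e)) ∨ (y = Sum.inl (p e) ∧ x = Sum.inl (q e))) ∨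
    ∃ w a, (s w = a ∨ t w = a) ∧
      ((x = Sum.inl a ∧ y = Sum.inr w) ∨ (y = Sum.inl a ∧ x = Sum.inr w)) := by
  obtain ⟨-, h⟩ := (SimpleGraph.fromRel_adj _ _ _).1 h
  rcases x with a | w <;> rcases y with b | w'
  · rcases h with ⟨e, rfl, rfl⟩ | ⟨e, rfl, rfl⟩
    · exact Or.inl ⟨e, Or.inl ⟨rfl, rfl⟩⟩
    · exact Or.inl ⟨e, Or.inr ⟨rfl, rfl⟩⟩
  · rcases h with h | h
    · exact Or.inr ⟨w', a, h, Or.inl ⟨rfl, rfl⟩⟩
    · exact h.elim
  · rcases h with h | h
    · exact h.elim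
    · exact Or.inr ⟨w, b, h, Or.inr ⟨rfl, rfl⟩⟩
  · rcases h with h | h <;> exact h.elim

theorem adj_direct (e : ι) (h : p e ≠ q e) :
    (Gr s t p q).Adj (Sum.inl (p e)) (Sum.inl (q e)) :=
  (SimpleGraph.fromRel_adj _ _ _).2 ⟨fun h' => h (Sum.inl.inj h'), Or.inl ⟨e, rfl, rfl⟩⟩

theorem adj_s (w : W) : (Gr s t p q).Adj (Sum.inl (s w)) (Sum.inr w) :=
  (SimpleGraph.fromRel_adj _ _ _).2 ⟨Sum.inl_ne_inr, Or.inl (Or.inl rfl)⟩

theorem adj_t (w : W) : (Gr s t p q).Adj (Sum.inl (t w)) (Sum.inr w) :=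
  (SimpleGraph.fromRel_adj _ _ _).2 ⟨Sum.inl_ne_inr, Or.inl (Or.inr rfl)⟩

theorem bal_quot {E : Set W} (F : Set ι) (U : Set (Quotient (rs s t E)))
    (h : BalF s t p q {b | Quotient.mk (rs s t E) b ∈ U}) :
    Bal (fun e => Quotient.mk (rs s t E) (p e)) (fun e => Quotient.mk (rs s t E) (q e)) F U := by
  obtain ⟨φ, h1, h2⟩ := h
  have key : ∀ n a b, It s t E n a b → Quotient.mk (rs s t E) a ∈ U → φ a = φ b := by
    intro n
    induction n with
    | zero =>
      intro a b hab _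
      have : a = b := hab
      rw [this]
    | succ n ih =>
      rintro a b ⟨y, h3, w, hw, h4⟩ ha
      have e1 : Quotient.mk (rs s t E) a = Quotient.mk (rs s t E) y := Quotient.sound ⟨n, h3⟩
      have e2 : Quotient.mk (rs s t E) (s w) = Quotient.mk (rs s t E) (t w) :=
        Quotient.sound (rc_edge hw)
      rw [ih a y h3 ha]
      rcases h4 with ⟨h5, h6⟩ | ⟨h5, h6⟩
      · have m1 : Quotient.mk (rs s t E) (s w) ∈ U := by rw [h5, ← e1]; exact ha
        have := h1 w m1 (by change Quotient.mk (rs s t E) (t w) ∈ U; rw [← e2]; exact m1)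
        rwa [h5, h6] at this
      · have m1 : Quotient.mk (rs s t E) (t w) ∈ U := by rw [h6, ← e1]; exact ha
        have := h1 w (by change Quotient.mk (rs s t E) (s w) ∈ U; rw [e2]; exact m1) m1
        rw [h5, h6] at this
        exact this.symm
  have k2 : ∀ b, Quotient.mk (rs s t E) b ∈ U → φ (Quotient.mk (rs s t E) b).out = φ b := by
    intro b hb
    obtain ⟨n, hn⟩ : Rc s t E (Quotient.mk (rs s t E) b).out b := Quotient.mk_out (s := rs s t E) _
    exact key n _ _ hn (by rw [Quotient.out_eq]; exact hb)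
  refine ⟨fun K => φ K.out, fun e _ m1 m2 => ?_⟩
  simp only
  rw [k2 _ m1, k2 _ m2]
  exact h2 e m1 m2

/-- Every vertex set has an independent subset that misses half of it by at most `k`. -/
theorem big_indep [Fintype B] [DecidableEq B] [Fintype W] [DecidableEq W] [Fintype ι]
    (s t : W → B) (p q : ι → B) (k : ℕ) (hk : Fintype.card ι < k ^ 2 + 2 * k)
    (H : ∀ U : Set B, BalF s t p q U ∨ BalF s t p q Uᶜ) (X : Finset (B ⊕ W)) :
    ∃ I : Finset (B ⊕ W), I ⊆ X ∧ (Gr s t p q).IsIndepSet (I : Set (B ⊕ W)) ∧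
      X.card ≤ 2 * I.card + 2 * k := by
  classical
  set E : Set W := {w | Sum.inr w ∈ X} with hE
  let mk : B → Quotient (rs s t E) := Quotient.mk (rs s t E)
  obtain ⟨S, hS, φ, hφ⟩ := small_transversal (fun e => mk (p e)) (fun e => mk (q e))
    (univ : Finset ι) k (by rwa [card_univ]) fun U =>
      (H {b | mk b ∈ U}).imp (bal_quot _ U) (bal_quot _ Uᶜ)
  have hst : ∀ w, Sum.inr w ∈ X → mk (s w) = mk (t w) := fun w hw =>
    Quotient.sound (rc_edge (show w ∈ E from hw))
  let good : ZMod 2 → B → Prop := fun β b => mk b ∉ S ∧ φ (mk b) = β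
  let sel : ZMod 2 → B ⊕ W → Prop := fun β x => Sum.elim (good β) (fun w => ¬ good β (s w)) x
  have ind : ∀ β, (Gr s t p q).IsIndepSet ((X.filter (sel β) : Finset (B ⊕ W)) : Set (B ⊕ W)) := by
    intro β x hx y hy _ hxy
    obtain ⟨hx1, hx2⟩ := mem_filter.1 (mem_coe.1 hx)
    obtain ⟨hy1, hy2⟩ := mem_filter.1 (mem_coe.1 hy)
    have d1 : ∀ e, good β (p e) → good β (q e) → False := fun e g1 g2 =>
      hφ e (mem_coe.2 (mem_univ e)) g1.1 g2.1 (g1.2.trans g2.2.symm)
    have d2 : ∀ w a, (s w = a ∨ t w = a) → Sum.inr w ∈ X → good β a → good β (s w) := by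
      rintro w a (rfl | rfl) hw g1
      · exact g1
      · change mk (s w) ∉ S ∧ φ (mk (s w)) = β
        rw [hst w hw]
        exact g1
    rcases adj_cases hxy with ⟨e, ⟨rfl, rfl⟩ | ⟨rfl, rfl⟩⟩ | ⟨w, a, h, ⟨rfl, rfl⟩ | ⟨rfl, rfl⟩⟩
    · exact d1 e hx2 hy2
    · exact d1 e hy2 hx2
    · exact hy2 (d2 w a h hy1 hx2)
    · exact hx2 (d2 w a h hx1 hy2)
  let sb : B ⊕ W → Prop := fun x => Sum.elim (fun b => mk b ∈ S) (fun _ => False) x
  let sw : B ⊕ W → Prop := fun x => Sum.elim (fun _ => False) (fun w => mk (s w) ∈ S) x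
  have cnt : (X.filter (sel 0)).card + (X.filter (sel 1)).card + (X.filter sb).card =
      X.card + (X.filter sw).card := by
    rw [card_filter, card_filter, card_filter, card_filter, card_eq_sum_ones X,
      ← sum_add_distrib, ← sum_add_distrib, ← sum_add_distrib]
    refine sum_congr rfl fun x _ => ?_
    have z : ∀ a : ZMod 2, a = 0 ∨ a = 1 := by decide
    rcases x with b | w
    · by_cases c : mk b ∈ S
      · simp [sel, sb, sw, good, c]
      · rcases z (φ (mk b)) with h | h <;> simp [sel, sb, sw, good, c, h]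
    · by_cases c : mk (s w) ∈ S
      · simp [sel, sb, sw, good, c]
      · rcases z (φ (mk (s w))) with h | h <;> simp [sel, sb, sw, good, c, h]
  have c1 : (X.filter sb).card ≤ (X.filter sw).card + S.card := by
    let T : Finset B := univ.filter fun b => mk b ∈ S ∧ b ≠ (mk b).out
    let FW : Finset W := univ.filter fun w => Sum.inr w ∈ X ∧ mk (s w) ∈ S
    have a1 : T.card ≤ FW.card := by
      refine card_le_edges s t FW (fun b => dd s t E (mk b).out b) T fun b hb => ?_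
      obtain ⟨-, h1, h2⟩ := mem_filter.1 hb
      have h3 : Rc s t E (mk b).out b := Quotient.mk_out (s := rs s t E) _
      have h4 : dd s t E (mk b).out b ≠ 0 := by
        intro h0
        have h5 := dd_it h3
        rw [h0] at h5
        exact h2 (Eq.symm h5)
      obtain ⟨w, hw, h5⟩ := exists_parent h3 h4
      have h6 := hst w hw
      rcases h5 with ⟨h7, h8⟩ | ⟨h7, h8⟩
      · refine ⟨w, mem_filter.2 ⟨mem_univ _, hw, by rw [h7]; exact h1⟩, Or.inl ⟨h7, ?_⟩⟩
        rw [← h6, h7]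
        exact h8
      · refine ⟨w, mem_filter.2 ⟨mem_univ _, hw, by rw [h6, h7]; exact h1⟩, Or.inr ⟨h7, ?_⟩⟩
        rw [h6, h7]
        exact h8
    have a2 : FW.card ≤ (X.filter sw).card := by
      refine card_le_card_of_injOn Sum.inr (fun w hw => ?_) (Sum.inr_injective.injOn)
      obtain ⟨-, h1, h2⟩ := mem_filter.1 (mem_coe.1 hw)
      exact mem_coe.2 (mem_filter.2 ⟨h1, h2⟩)
    have a3 : X.filter sb ⊆ (T ∪ S.image Quotient.out).image Sum.inl := by
      intro x hx
      obtain ⟨-, h1⟩ := mem_filter.1 hx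
      rcases x with b | w
      · refine mem_image.2 ⟨b, ?_, rfl⟩
        by_cases c : b = (mk b).out
        · exact mem_union_right _ (mem_image.2 ⟨mk b, h1, c.symm⟩)
        · exact mem_union_left _ (mem_filter.2 ⟨mem_univ _, h1, c⟩)
      · exact h1.elim
    have a4 := (card_le_card a3).trans (card_image_le.trans (card_union_le _ _))
    have a5 : (S.image Quotient.out).card ≤ S.card := card_image_le
    omega
  by_cases c : (X.filter (sel 0)).card ≤ (X.filter (sel 1)).card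
  · exact ⟨_, filter_subset _ _, ind 1, by omega⟩
  · exact ⟨_, filter_subset _ _, ind 0, by omega⟩

/-- A vertex set whose branch vertices are balanced is a union of two independent sets. -/
theorem two_indep (U : Set (B ⊕ W)) (h : BalF s t p q {b | Sum.inl b ∈ U}) :
    ∃ A C : Set (B ⊕ W), (Gr s t p q).IsIndepSet A ∧ (Gr s t p q).IsIndepSet C ∧ A ∪ C = U := by
  classical
  obtain ⟨φ, h1, h2⟩ := h
  let χ : B ⊕ W → ZMod 2 := Sum.elim φ fun w =>
    if Sum.inl (s w) ∈ U then φ (s w) + 1 else φ (t w) + 1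
  have z1 : ∀ a : ZMod 2, a ≠ a + 1 := by decide
  have key : ∀ x ∈ U, ∀ y ∈ U, (Gr s t p q).Adj x y → χ x ≠ χ y := by
    have d2 : ∀ w a, (s w = a ∨ t w = a) → Sum.inl a ∈ U → χ (Sum.inl a) ≠ χ (Sum.inr w) := by
      rintro w a (rfl | rfl) ha
      · simp only [χ, Sum.elim_inl, Sum.elim_inr, if_pos ha]
        exact z1 _
      · simp only [χ, Sum.elim_inl, Sum.elim_inr]
        by_cases c : Sum.inl (s w) ∈ U
        · rw [if_pos c, h1 w c ha]
          exact z1 _
        · rw [if_neg c]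
          exact z1 _
    intro x hx y hy hxy
    rcases adj_cases hxy with ⟨e, ⟨rfl, rfl⟩ | ⟨rfl, rfl⟩⟩ | ⟨w, a, h, ⟨rfl, rfl⟩ | ⟨rfl, rfl⟩⟩
    · exact h2 e hx hy
    · exact (h2 e hy hx).symm
    · exact d2 w a h hx
    · exact (d2 w a h hy).symm
  refine ⟨{x ∈ U | χ x = 0}, {x ∈ U | χ x = 1}, ?_, ?_, ?_⟩
  · exact fun x hx y hy _ hxy => key x hx.1 y hy.1 hxy (hx.2.trans hy.2.symm)
  · exact fun x hx y hy _ hxy => key x hx.1 y hy.1 hxy (hx.2.trans hy.2.symm)
  · have z : ∀ a : ZMod 2, a = 0 ∨ a = 1 := by decide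
    ext x
    constructor
    · rintro (h | h) <;> exact h.1
    · exact fun hx => (z (χ x)).imp (fun h => ⟨hx, h⟩) fun h => ⟨hx, h⟩

end Pool.Agent.MP_2abbea_co
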